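import Mathlib

/-!
# Collinear points on lattice paths with bounded steps

A path `i ↦ (i, f i)` with steps `0 ≤ f (i+1) - f i ≤ C` contains `K` collinear points among
any `N(C, K)` consecutive ones.
-/

set_option autoImplicit false

namespace Pool.Agent.Work.MP_684405_nt

lemma step_bound {f : ℕ → ℤ} {C : ℤ} {N : ℕ}
    (hf : ∀ i < N, 0 ≤ f (i + 1) - f i ∧ f (i + 1) - f i ≤ C) {i j : ℕ} (hij : i ≤ j)
    (hj : j ≤ N) : 0 ≤ f j - f i ∧ f j - f i ≤ C * ((j : ℤ) - i) := by
  induction j, hij using Nat.le_induction with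
  | base => simp
  | succ j hij ih =>
    have h1 := ih (by omega)
    have h2 := hf j (by omega)
    push_cast
    constructor
    · linarith [h1.1, h2.1]
    · nlinarith [h1.2, h2.2]

/-- If an interval is not nearly linear then it has a subinterval of larger slope. -/
lemma bad_interval {f : ℕ → ℤ} {C M : ℤ} {N : ℕ} (hM : 0 < M)
    (hf : ∀ i < N, 0 ≤ f (i + 1) - f i ∧ f (i + 1) - f i ≤ C) {u L : ℕ} (huL : u + L ≤ N)
    {K : ℤ} (hK : K * L ≤ M * (f (u + L) - f u))
    {t : ℕ} (ht : t ≤ L)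
    (hbad : (L : ℤ) ^ 2 < M * |(f (u + t) - f u) * L - (f (u + L) - f u) * t|) :
    ∃ u' L' : ℕ, u' + L' ≤ u + L ∧ (L : ℤ) < M * C * L' ∧ 0 < L' ∧
      (K + 1) * L' ≤ M * (f (u' + L') - f u') := by
  have hL : 0 < L := by
    rcases Nat.eq_zero_or_pos L with h | h
    · subst h
      have : t = 0 := by omega
      subst this
      simp at hbad
    · exact h
  have hLz : (0 : ℤ) < L := by exact_mod_cast hL
  have htz : (t : ℤ) ≤ L := by exact_mod_cast ht
  have ht0 : (0 : ℤ) ≤ t := by positivity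
  have hF := step_bound hf (show u ≤ u + L by omega) huL
  have hg := step_bound hf (show u ≤ u + t by omega) (show u + t ≤ N by omega)
  have hFg := step_bound hf (show u + t ≤ u + L by omega) huL
  push_cast at hF hg hFg
  set F := f (u + L) - f u with hFdef
  set g := f (u + t) - f u with hgdef
  have hFg' : f (u + L) - f (u + t) = F - g := by rw [hFdef, hgdef]; ring
  rw [hFg'] at hFg
  rcases abs_cases (g * L - F * t) with ⟨habs, hs⟩ | ⟨habs, hs⟩
  · rw [habs] at hbad
    have htpos : 0 < t := by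
      rcases Nat.eq_zero_or_pos t with h | h
      · subst h
        simp [hgdef] at hbad
        nlinarith
      · exact h
    have htz0 : (0 : ℤ) < t := by exact_mod_cast htpos
    refine ⟨u, t, by omega, ?_, htpos, ?_⟩
    · -- length
      have h1 : M * (g * L) ≤ M * ((C * (u + t - u)) * L) := by
        apply mul_le_mul_of_nonneg_left _ hM.le
        exact mul_le_mul_of_nonneg_right hg.2 hLz.le
      have h2 : 0 ≤ M * (F * t) := by
        have := hF.1
        positivity
      have h3 : (L : ℤ) * L < L * (M * C * t) := by nlinarith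
      exact lt_of_mul_lt_mul_left h3 hLz.le
    · have h1 : K * L * t ≤ M * F * t := mul_le_mul_of_nonneg_right hK ht0
      have h2 : (L : ℤ) * t ≤ L ^ 2 := by nlinarith
      have h3 : (L : ℤ) * ((K + 1) * t) < L * (M * g) := by nlinarith
      exact (lt_of_mul_lt_mul_left h3 hLz.le).le
  · rw [habs] at hbad
    have htL : t < L := by
      rcases Nat.lt_or_ge t L with h | h
      · exact h
      · have : t = L := le_antisymm ht h
        subst this
        have : F = g := rfl
        rw [this] at hbad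
        nlinarith
    obtain ⟨r, hr⟩ : ∃ r, L = t + r := ⟨L - t, by omega⟩
    have hrpos : 0 < r := by omega
    have hrz : (0 : ℤ) < r := by exact_mod_cast hrpos
    have hLr : (L : ℤ) = t + r := by rw [hr]; push_cast; ring
    refine ⟨u + t, r, by omega, ?_, hrpos, ?_⟩
    · have h1 : M * ((F - g) * L) ≤ M * ((C * r) * L) := by
        apply mul_le_mul_of_nonneg_left _ hM.le
        apply mul_le_mul_of_nonneg_right _ hLz.le
        have := hFg.2
        rw [hLr] at this
        have e : C * ((u : ℤ) + (t + r) - (u + t)) = C * r := by ring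
        rw [e] at this
        exact this
      have h2 : 0 ≤ M * (F * r) := by
        have := hF.1
        positivity
      have h3 : (L : ℤ) * L < L * (M * C * r) := by nlinarith
      exact lt_of_mul_lt_mul_left h3 hLz.le
    · have e1 : f (u + t + r) - f (u + t) = F - g := by
        rw [← hFg', hr, ← add_assoc]
      rw [e1]
      have h1 : K * L * r ≤ M * F * r := mul_le_mul_of_nonneg_right hK hrz.le
      have h2 : (L : ℤ) * r ≤ L ^ 2 := by nlinarith
      have h4 : M * F * L = M * F * t + M * F * r := by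
        conv_lhs => rw [hLr]
        ring
      have h3 : (L : ℤ) * ((K + 1) * r) < L * (M * (F - g)) := by linarith
      exact (lt_of_mul_lt_mul_left h3 hLz.le).le

/-- Existence of a nearly linear subinterval. -/
lemma good_interval_aux {f : ℕ → ℤ} {C M : ℕ} {N : ℕ} (hM : 0 < M) (hC : 0 < C) (L0 : ℕ)
    (hf : ∀ i < N, 0 ≤ f (i + 1) - f i ∧ f (i + 1) - f i ≤ C) (j : ℕ) :
    ∀ u L : ℕ, u + L ≤ N → L0 * (M * C) ^ j ≤ L →
      ((M : ℤ) * C - j) * L ≤ M * (f (u + L) - f u) →
      ∃ u' L' : ℕ, u' + L' ≤ N ∧ L0 ≤ L' ∧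
        ∀ t ≤ L', (M : ℤ) * |(f (u' + t) - f u') * L' - (f (u' + L') - f u') * t| ≤ (L' : ℤ) ^ 2 := by
  have hMz : (0 : ℤ) < M := by exact_mod_cast hM
  have hMC : 0 < M * C := Nat.mul_pos hM hC
  induction j with
  | zero =>
    intro u L huL hL hK
    by_cases hgood : ∀ t ≤ L,
        (M : ℤ) * |(f (u + t) - f u) * L - (f (u + L) - f u) * t| ≤ (L : ℤ) ^ 2
    · exact ⟨u, L, huL, by simpa using hL, hgood⟩
    · push Not at hgood
      obtain ⟨t, ht, hbad⟩ := hgood
      obtain ⟨u', L', h1, h2, h3, h4⟩ := bad_interval hMz hf huL hK ht hbad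
      exfalso
      have h5 := (step_bound hf (show u' ≤ u' + L' by omega) (by omega)).2
      push_cast at h5 h4
      have h3z : (0 : ℤ) < L' := by exact_mod_cast h3
      nlinarith
  | succ j ih =>
    intro u L huL hL hK
    by_cases hgood : ∀ t ≤ L,
        (M : ℤ) * |(f (u + t) - f u) * L - (f (u + L) - f u) * t| ≤ (L : ℤ) ^ 2
    · refine ⟨u, L, huL, ?_, hgood⟩
      calc L0 = L0 * 1 := (mul_one _).symm
        _ ≤ L0 * (M * C) ^ (j + 1) := Nat.mul_le_mul_left _ (Nat.one_le_pow _ _ hMC)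
        _ ≤ L := hL
    · push Not at hgood
      obtain ⟨t, ht, hbad⟩ := hgood
      obtain ⟨u', L', h1, h2, h3, h4⟩ := bad_interval hMz hf huL hK ht hbad
      refine ih u' L' (by omega) ?_ (by push_cast at h4; convert h4 using 2; ring)
      have h5 : (L0 * (M * C) ^ j) * (M * C) ≤ L' * (M * C) := by
        calc (L0 * (M * C) ^ j) * (M * C) = L0 * (M * C) ^ (j + 1) := by ring
          _ ≤ L := hL
          _ ≤ L' * (M * C) := by
            have : (L : ℤ) < ((L' * (M * C) : ℕ) : ℤ) := by push_cast; linarith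
            exact_mod_cast this.le
      exact Nat.le_of_mul_le_mul_right h5 hMC

lemma good_interval {f : ℕ → ℤ} {C M : ℕ} (hM : 0 < M) (hC : 0 < C) (L0 : ℕ) {N : ℕ}
    (hN : L0 * (M * C) ^ (M * C) ≤ N)
    (hf : ∀ i < N, 0 ≤ f (i + 1) - f i ∧ f (i + 1) - f i ≤ C) :
      ∃ u' L' : ℕ, u' + L' ≤ N ∧ L0 ≤ L' ∧
        ∀ t ≤ L', (M : ℤ) * |(f (u' + t) - f u') * L' - (f (u' + L') - f u') * t| ≤ (L' : ℤ) ^ 2 := by
  refine good_interval_aux hM hC L0 hf (M * C) 0 N (by omega) hN ?_
  have h := (step_bound hf (Nat.zero_le N) le_rfl).1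
  have hMz : (0 : ℤ) < M := by exact_mod_cast hM
  push_cast
  rw [sub_self, zero_mul, zero_add]
  positivity

/-- **Collinear points.** -/
theorem exists_collinear (C : ℕ) (hC : 0 < C) (K : ℕ) : ∃ N : ℕ, ∀ f : ℕ → ℤ,
    (∀ i < N, 0 ≤ f (i + 1) - f i ∧ f (i + 1) - f i ≤ C) →
    ∃ (a b : ℤ) (S : Finset ℕ), 0 < a ∧ K ≤ S.card ∧ (∀ i ∈ S, i ≤ N) ∧
      ∀ i ∈ S, ∀ j ∈ S, a * (f i - f j) = b * ((i : ℤ) - j) := by
  -- parameters
  set Q : ℕ := 8 * (K + 1) - 1 with hQ
  have hQ1 : Q + 1 = 8 * (K + 1) := by omega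
  have hQpos : 0 < Q := by omega
  set M : ℕ := Q * (Q + 1) with hMdef
  have hM : 0 < M := by positivity
  set L0 : ℕ := 4 * (K + 1) with hL0
  refine ⟨L0 * (M * C) ^ (M * C), fun f hf => ?_⟩
  obtain ⟨u, L, huL, hL, hgood⟩ := good_interval hM hC L0 le_rfl hf
  have hLpos : 0 < L := by omega
  have hLr : (0 : ℝ) < L := by exact_mod_cast hLpos
  set σ : ℝ := ((f (u + L) - f u : ℤ) : ℝ) / L with hσ
  obtain ⟨b, a, ha0, haQ, hab⟩ := Real.exists_int_int_abs_mul_sub_le σ hQpos
  have hQr : (0 : ℝ) < (Q : ℝ) + 1 := by positivity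
  have haR : (0 : ℝ) < a := by exact_mod_cast ha0
  have haQR : (a : ℝ) ≤ Q := by exact_mod_cast haQ
  -- the deviation
  have hdev : ∀ t ≤ L, |a * (f (u + t) - f u) - b * (t : ℤ)| * (4 * (K + 1)) ≤ (L : ℤ) := by
    intro t ht
    have htR : (t : ℝ) ≤ L := by exact_mod_cast ht
    have h1 := hgood t ht
    have h1R : (M : ℝ) * |((f (u + t) - f u : ℤ) : ℝ) * L - ((f (u + L) - f u : ℤ) : ℝ) * t|
        ≤ (L : ℝ) ^ 2 := by
      have := (Int.cast_le (R := ℝ)).2 h1
      push_cast at this ⊢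
      simpa using this
    have h2 : |((f (u + t) - f u : ℤ) : ℝ) - σ * t| ≤ L / M := by
      have e : ((f (u + t) - f u : ℤ) : ℝ) * L - ((f (u + L) - f u : ℤ) : ℝ) * t
          = (((f (u + t) - f u : ℤ) : ℝ) - σ * t) * L := by
        rw [hσ]; field_simp
      rw [e, abs_mul, abs_of_pos hLr] at h1R
      have hMR : (0 : ℝ) < M := by exact_mod_cast hM
      rw [le_div_iff₀ hMR]
      nlinarith [abs_nonneg (((f (u + t) - f u : ℤ) : ℝ) - σ * t)]
    have h3 : |(a : ℝ) * ((f (u + t) - f u : ℤ) : ℝ) - b * t| ≤ 2 * L / (Q + 1) := by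
      have e : (a : ℝ) * ((f (u + t) - f u : ℤ) : ℝ) - b * t
          = a * (((f (u + t) - f u : ℤ) : ℝ) - σ * t) + (a * σ - b) * t := by ring
      rw [e]
      refine (abs_add_le _ _).trans ?_
      rw [abs_mul, abs_mul, abs_of_pos haR, Nat.abs_cast]
      have hMQ : (M : ℝ) = Q * (Q + 1) := by rw [hMdef]; push_cast; ring
      have hQR : (0 : ℝ) < Q := by exact_mod_cast hQpos
      have h4 : (a : ℝ) * |((f (u + t) - f u : ℤ) : ℝ) - σ * t| ≤ Q * (L / M) :=
        mul_le_mul haQR h2 (abs_nonneg _) hQR.le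
      have h5 : |(a : ℝ) * σ - b| * t ≤ 1 / (Q + 1) * L :=
        mul_le_mul hab htR (by positivity) (by positivity)
      have h6 : (Q : ℝ) * (L / M) = L / (Q + 1) := by
        rw [hMQ]; field_simp
      have h7 : (2 : ℝ) * L / (Q + 1) = Q * (L / M) + 1 / (Q + 1) * L := by rw [h6]; ring
      rw [h7]
      exact add_le_add h4 h5
    have hQ1R : (Q : ℝ) + 1 = 8 * (K + 1) := by exact_mod_cast hQ1
    rw [hQ1R] at h3
    have h7 : ((|a * (f (u + t) - f u) - b * (t : ℤ)| * (4 * (K + 1)) : ℤ) : ℝ) ≤ ((L : ℤ) : ℝ) := by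
      push_cast
      have h8 : (0 : ℝ) < 8 * ((K : ℝ) + 1) := by positivity
      rw [le_div_iff₀ h8] at h3
      push_cast at h3
      linarith
    exact_mod_cast h7
  -- pigeonhole
  set R : ℕ := L / (4 * (K + 1)) with hR
  have hmaps : ∀ t ∈ Finset.range (L + 1),
      a * (f (u + t) - f u) - b * (t : ℤ) ∈ Finset.Icc (-(R : ℤ)) R := by
    intro t ht
    have h1 := hdev t (by simpa [Nat.lt_succ_iff] using ht)
    rw [Finset.mem_Icc, ← abs_le, hR]
    push_cast
    rw [Int.le_ediv_iff_mul_le (by positivity)]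
    exact h1
  have hcard : (Finset.Icc (-(R : ℤ)) R).card * K < (Finset.range (L + 1)).card := by
    rw [Int.card_Icc, Finset.card_range]
    have h1 : ((R : ℤ) + 1 - -(R : ℤ)).toNat = 2 * R + 1 := by omega
    rw [h1]
    have h2 : R * (4 * (K + 1)) ≤ L := Nat.div_mul_le_self _ _
    nlinarith
  obtain ⟨c, -, hc⟩ := Finset.exists_lt_card_fiber_of_mul_lt_card_of_maps_to hmaps hcard
  refine ⟨a, b, ((Finset.range (L + 1)).filter
    (fun t => a * (f (u + t) - f u) - b * (t : ℤ) = c)).map (addLeftEmbedding u), ha0, ?_, ?_, ?_⟩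
  · rw [Finset.card_map]
    exact hc.le
  · intro i hi
    simp only [Finset.mem_map, Finset.mem_filter, Finset.mem_range, addLeftEmbedding_apply] at hi
    obtain ⟨t, ⟨ht, -⟩, rfl⟩ := hi
    omega
  · intro i hi j hj
    simp only [Finset.mem_map, Finset.mem_filter, Finset.mem_range, addLeftEmbedding_apply] at hi hj
    obtain ⟨t, ⟨ht, h1⟩, rfl⟩ := hi
    obtain ⟨s, ⟨hs, h2⟩, rfl⟩ := hj
    push_cast
    linarith

end Pool.Agent.Work.MP_684405_nt
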