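import Mathlib
import Pool.Agent.Work.MP_684405_nt.Collinear

/-!
# Seven collinear points in primitive form
-/

set_option autoImplicit false

namespace Pool.Agent.Work.MP_684405_nt

open Finset

/-- Seven collinear points on a path with steps in `[0, C]`, in normalised form. -/
theorem exists_pattern (C : ℕ) (hC : 0 < C) : ∃ N : ℕ, ∀ f : ℕ → ℤ,
    (∀ i < N, 0 ≤ f (i + 1) - f i ∧ f (i + 1) - f i ≤ C) →
    ∃ (i₀ α β : ℕ) (t : Fin 7 → ℕ), 1 ≤ α ∧ α ≤ N ∧ β ≤ C * N ∧ t 0 = 0 ∧
      Function.Injective t ∧ (univ : Finset (Fin 7)).gcd t = 1 ∧ (∀ j, t j ≤ N) ∧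
      (∀ j, i₀ + α * t j ≤ N) ∧ ∀ j, f (i₀ + α * t j) = f i₀ + β * t j := by
  obtain ⟨N, hN⟩ := exists_collinear C hC 7
  refine ⟨N, fun f hf => ?_⟩
  obtain ⟨a, b, S, ha, hS, hSN, hcol⟩ := hN f hf
  set ι : Fin 7 → ℕ := fun j => S.orderEmbOfCardLe hS j with hι
  have hιmono : StrictMono ι := (S.orderEmbOfCardLe hS).strictMono
  have hιmem : ∀ j, ι j ∈ S := fun j => S.orderEmbOfCardLe_mem hS j
  have hιle : ∀ j, ι 0 ≤ ι j := fun j => hιmono.monotone (Fin.zero_le j)
  set δ : Fin 7 → ℕ := fun j => ι j - ι 0 with hδ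
  have hδι : ∀ j, ι j = ι 0 + δ j := fun j => by
    have := hιle j
    simp only [hδ]; omega
  have hδ0 : δ 0 = 0 := by simp [hδ]
  have hδinj : Function.Injective δ := fun i j h => hιmono.injective (by
    rw [hδι i, hδι j, h])
  have hδ1 : δ 1 ≠ 0 := by
    intro h
    have := hδinj (h.trans hδ0.symm)
    exact absurd this (by decide)
  set α : ℕ := (univ : Finset (Fin 7)).gcd δ with hα
  have hαδ : ∀ j, α ∣ δ j := fun j => gcd_dvd (mem_univ j)
  have hαpos : 0 < α := by
    rcases Nat.eq_zero_or_pos α with h0 | h0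
    · have h1 := hαδ 1
      rw [h0] at h1
      exact absurd (Nat.eq_zero_of_zero_dvd h1) hδ1
    · exact h0
  choose t ht using hαδ
  have htinj : Function.Injective t := fun i j h => hδinj (by rw [ht i, ht j, h])
  have ht0 : t 0 = 0 := by
    have h1 := ht 0
    rw [hδ0] at h1
    rcases Nat.mul_eq_zero.1 h1.symm with h2 | h2
    · omega
    · exact h2
  have ht1 : 0 < t 1 := by
    rcases Nat.eq_zero_or_pos (t 1) with h0 | h0
    · exact absurd (htinj (h0.trans ht0.symm)) (by decide)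
    · exact h0
  have hgcdt : (univ : Finset (Fin 7)).gcd t = 1 := by
    have h1 : α = α * (univ : Finset (Fin 7)).gcd t := by
      have h2 : (univ : Finset (Fin 7)).gcd δ = (univ : Finset (Fin 7)).gcd (fun i => α * t i) :=
        Finset.gcd_congr rfl fun i _ => ht i
      rw [Finset.gcd_mul_left] at h2
      simpa using h2
    have h3 : α * (univ : Finset (Fin 7)).gcd t = α * 1 := by rw [← h1, mul_one]
    exact Nat.eq_of_mul_eq_mul_left hαpos h3
  have hkey : ∀ j, a * (f (ι j) - f (ι 0)) = (b * α) * t j := by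
    intro j
    rw [hcol _ (hιmem j) _ (hιmem 0)]
    have h1 : ((ι j : ℤ) - ι 0) = α * t j := by
      rw [hδι j, ht j]; push_cast; ring
    rw [h1]; ring
  -- `a` divides `b * α`
  have hdvd : a ∣ b * α := by
    have h1 : a.natAbs ∣ (univ : Finset (Fin 7)).gcd (fun j => (b * α).natAbs * t j) := by
      apply Finset.dvd_gcd
      intro j _
      have h2 : a ∣ (b * α) * t j := ⟨_, (hkey j).symm⟩
      have h3 := Int.natAbs_dvd_natAbs.2 h2
      rwa [Int.natAbs_mul, Int.natAbs_natCast] at h3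
    rw [Finset.gcd_mul_left, hgcdt] at h1
    have h4 : a.natAbs ∣ (b * α).natAbs := by simpa using h1
    exact Int.natAbs_dvd_natAbs.1 h4
  obtain ⟨β', hβ'⟩ := hdvd
  have hdiff : ∀ j, f (ι j) - f (ι 0) = β' * t j := by
    intro j
    have h1 := hkey j
    rw [hβ', mul_assoc] at h1
    exact mul_left_cancel₀ ha.ne' h1
  have hstep := step_bound hf (hιle 1) (hSN _ (hιmem 1))
  have ht1z : (0 : ℤ) < t 1 := by exact_mod_cast ht1
  have hβnn : 0 ≤ β' := by
    have h1 := hstep.1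
    rw [hdiff 1] at h1
    exact nonneg_of_mul_nonneg_left h1 ht1z
  have hβle : β' ≤ C * α := by
    have h1 := hstep.2
    rw [hdiff 1] at h1
    have h2 : ((ι 1 : ℤ) - ι 0) = α * t 1 := by
      rw [hδι 1, ht 1]; push_cast; ring
    rw [h2] at h1
    have h3 : β' * t 1 ≤ (C * α) * t 1 := by linarith
    exact le_of_mul_le_mul_right h3 ht1z
  have hδN : ∀ j, δ j ≤ N := fun j => by
    have h1 := hSN _ (hιmem j)
    rw [hδι j] at h1
    omega
  have hαN : α ≤ N := (Nat.le_of_dvd (Nat.pos_of_ne_zero hδ1) (gcd_dvd (mem_univ 1))).trans (hδN 1)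
  refine ⟨ι 0, α, β'.toNat, t, hαpos, hαN, ?_, ht0, htinj, hgcdt, ?_, ?_, ?_⟩
  · have h1 : β' ≤ C * N := hβle.trans (by
      have : (α : ℤ) ≤ N := by exact_mod_cast hαN
      have hCz : (0 : ℤ) ≤ C := by positivity
      nlinarith)
    have h2 : ((β'.toNat : ℕ) : ℤ) ≤ ((C * N : ℕ) : ℤ) := by
      rw [Int.toNat_of_nonneg hβnn]; push_cast; exact h1
    exact_mod_cast h2
  · intro j
    calc t j = 1 * t j := (one_mul _).symm
      _ ≤ α * t j := Nat.mul_le_mul_right _ hαpos
      _ = δ j := (ht j).symm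
      _ ≤ N := hδN j
  · intro j
    rw [← ht j, ← hδι j]
    exact hSN _ (hιmem j)
  · intro j
    rw [← ht j, ← hδι j, Int.toNat_of_nonneg hβnn, ← hdiff j]
    ring

end Pool.Agent.Work.MP_684405_nt
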