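import Mathlib

/-!
# A packing statement for groups with a quadratic-like height

Let `A` be an abelian group with `A / 2 A` finite and a height function satisfying the
approximate parallelogram law and the Northcott property.  Then the ball of radius `ρ t`
can be coloured with a number of colours independent of `t ≥ 1` in such a way that two points
of the same colour have a difference of height at most `ε t`.
-/

set_option autoImplicit false

namespace Pool.Agent.Work.MP_684405_nt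

variable {A : Type*} [AddCommGroup A] {h : A → ℝ} {C : ℝ}

lemma par_nonneg (_h0 : h 0 = 0) (hpar : ∀ x y, |h (x + y) + h (x - y) - 2 * (h x + h y)| ≤ C) :
    0 ≤ C := (abs_nonneg _).trans (hpar 0 0)

lemma h_add_le (hnn : ∀ x, 0 ≤ h x)
    (hpar : ∀ x y, |h (x + y) + h (x - y) - 2 * (h x + h y)| ≤ C) (x y : A) :
    h (x + y) ≤ 2 * h x + 2 * h y + C := by
  have h1 := (abs_le.1 (hpar x y)).2
  have h2 := hnn (x - y)
  linarith

lemma h_sub_le (hnn : ∀ x, 0 ≤ h x)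
    (hpar : ∀ x y, |h (x + y) + h (x - y) - 2 * (h x + h y)| ≤ C) (x y : A) :
    h (x - y) ≤ 2 * h x + 2 * h y + C := by
  have h1 := (abs_le.1 (hpar x y)).2
  have h2 := hnn (x + y)
  linarith

lemma h_two (h0 : h 0 = 0) (hpar : ∀ x y, |h (x + y) + h (x - y) - 2 * (h x + h y)| ≤ C) (x : A) :
    h ((2 : ℕ) • x) ≤ 4 * h x + C ∧ 4 * h x - C ≤ h ((2 : ℕ) • x) := by
  have h1 := abs_le.1 (hpar x x)
  rw [sub_self, h0, ← two_nsmul] at h1
  constructor <;> linarith [h1.1, h1.2]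

lemma h_pow_upper (h0 : h 0 = 0)
    (hpar : ∀ x y, |h (x + y) + h (x - y) - 2 * (h x + h y)| ≤ C) (s : A) (m : ℕ) :
    h ((2 ^ m : ℕ) • s) ≤ 4 ^ m * (h s + C) - C := by
  have hC := par_nonneg h0 hpar
  induction m with
  | zero => simp
  | succ m ih =>
    have h1 := (h_two h0 hpar ((2 ^ m : ℕ) • s)).1
    rw [smul_smul, ← pow_succ'] at h1
    have h2 : (4 : ℝ) ^ (m + 1) * (h s + C) = 4 * (4 ^ m * (h s + C)) := by ring
    rw [h2]
    linarith

lemma h_pow_lower (h0 : h 0 = 0)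
    (hpar : ∀ x y, |h (x + y) + h (x - y) - 2 * (h x + h y)| ≤ C) (s : A) (m : ℕ) :
    4 ^ m * (h s - C) + C ≤ h ((2 ^ m : ℕ) • s) := by
  have hC := par_nonneg h0 hpar
  induction m with
  | zero => simp
  | succ m ih =>
    have h1 := (h_two h0 hpar ((2 ^ m : ℕ) • s)).2
    rw [smul_smul, ← pow_succ'] at h1
    have h2 : (4 : ℝ) ^ (m + 1) * (h s - C) = 4 * (4 ^ m * (h s - C)) := by ring
    rw [h2]
    linarith

/-- Binary digits. -/
lemma digits (hnn : ∀ x, 0 ≤ h x) (h0 : h 0 = 0)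
    (hpar : ∀ x y, |h (x + y) + h (x - y) - 2 * (h x + h y)| ≤ C)
    {S : Set A} (hcov : ∀ x, ∃ s ∈ S, ∃ y, x = (2 : ℕ) • y + s) {H0 : ℝ} (hH0 : 0 ≤ H0)
    (hS : ∀ s ∈ S, h s ≤ H0) (m : ℕ) (x : A) :
    ∃ y r : A, x = (2 ^ m : ℕ) • y + r ∧ h r ≤ 4 ^ m * (H0 + C) ∧ (m = 0 → r = 0) := by
  have hC := par_nonneg h0 hpar
  induction m with
  | zero => exact ⟨x, 0, by simp, by rw [h0]; positivity, fun _ => rfl⟩
  | succ m ih =>
    obtain ⟨y, r, hx, hr, -⟩ := ih
    obtain ⟨s, hs, z, hz⟩ := hcov y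
    refine ⟨z, (2 ^ m : ℕ) • s + r, ?_, ?_, by simp⟩
    · rw [hx, hz, smul_add, smul_smul, ← pow_succ, add_assoc]
    · have h1 := h_add_le hnn hpar ((2 ^ m : ℕ) • s) r
      have h2 := h_pow_upper h0 hpar s m
      have h3 : (4 : ℝ) ^ m * (h s + C) ≤ 4 ^ m * (H0 + C) := by
        apply mul_le_mul_of_nonneg_left _ (by positivity)
        linarith [hS s hs]
      have h4 : (4 : ℝ) ^ (m + 1) * (H0 + C) = 4 * (4 ^ m * (H0 + C)) := by ring
      rw [h4]
      linarith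

/-- The colouring theorem. -/
theorem coloring (hnn : ∀ x, 0 ≤ h x) (h0 : h 0 = 0)
    (hpar : ∀ x y, |h (x + y) + h (x - y) - 2 * (h x + h y)| ≤ C)
    (hfin : ∀ B : ℝ, {x | h x ≤ B}.Finite)
    {S : Set A} (hSf : S.Finite) (hcov : ∀ x, ∃ s ∈ S, ∃ y, x = (2 : ℕ) • y + s)
    (ρ ε : ℝ) (hρ : 0 ≤ ρ) (hε : 0 < ε) :
    ∃ F : Finset A, ∀ t : ℝ, 1 ≤ t → ∃ c : A → A,
      (∀ x, h x ≤ ρ * t → c x ∈ F) ∧
      ∀ x y, h x ≤ ρ * t → h y ≤ ρ * t → c x = c y → h (x - y) ≤ ε * t := by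
  have hC := par_nonneg h0 hpar
  obtain ⟨H0, hH0, hS⟩ : ∃ H0 : ℝ, 0 ≤ H0 ∧ ∀ s ∈ S, h s ≤ H0 := by
    obtain ⟨B, hB⟩ := (hSf.image h).bddAbove
    exact ⟨max B 0, le_max_right _ _, fun s hs => (hB ⟨s, hs, rfl⟩).trans (le_max_left _ _)⟩
  set K : ℝ := H0 + C with hK
  have hKnn : 0 ≤ K := by positivity
  set K' : ℝ := 4 * K + C + 1 with hK'
  have hK'pos : 0 < K' := by positivity
  set B : ℝ := C + 2 * K + 8 * ρ * K' / ε with hB
  refine ⟨(hfin B).toFinset, fun t ht => ?_⟩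
  by_cases hu : 1 ≤ ε * t / K'
  · obtain ⟨m, hm1, hm2⟩ := exists_nat_pow_near hu (by norm_num : (1 : ℝ) < 4)
    have hm1' : 4 ^ m * K' ≤ ε * t := by rwa [le_div_iff₀ hK'pos] at hm1
    have hm2' : ε * t < 4 ^ (m + 1) * K' := by rwa [div_lt_iff₀ hK'pos] at hm2
    have h4 : (0 : ℝ) < 4 ^ m := by positivity
    choose y r hx hr _ using digits hnn h0 hpar hcov hH0 hS m
    refine ⟨y, fun x hxb => ?_, fun x x' hxb hxb' heq => ?_⟩
    · rw [Set.Finite.mem_toFinset, Set.mem_ofPred_eq]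
      have e1 : (2 ^ m : ℕ) • y x = x - r x := eq_sub_of_add_eq (hx x).symm
      have e2 := h_pow_lower h0 hpar (y x) m
      rw [e1] at e2
      have e3 := h_sub_le hnn hpar x (r x)
      have e4 := hr x
      have e5 : 4 ^ m * (h (y x) - C) ≤ 2 * (ρ * t) + 2 * (4 ^ m * K) := by linarith
      have e6 : ρ * t ≤ 4 ^ m * (4 * ρ * K' / ε) := by
        have : t ≤ 4 ^ (m + 1) * K' / ε := by
          rw [le_div_iff₀ hε]; linarith
        calc ρ * t ≤ ρ * (4 ^ (m + 1) * K' / ε) := mul_le_mul_of_nonneg_left this hρ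
          _ = 4 ^ m * (4 * ρ * K' / ε) := by ring
      have e7 : 4 ^ m * (h (y x) - C) ≤ 4 ^ m * (2 * (4 * ρ * K' / ε) + 2 * K) := by
        calc 4 ^ m * (h (y x) - C) ≤ 2 * (ρ * t) + 2 * (4 ^ m * K) := e5
          _ ≤ 2 * (4 ^ m * (4 * ρ * K' / ε)) + 2 * (4 ^ m * K) := by linarith
          _ = 4 ^ m * (2 * (4 * ρ * K' / ε) + 2 * K) := by ring
      have e8 := le_of_mul_le_mul_left e7 h4
      have e9 : 8 * ρ * K' / ε = 2 * (4 * ρ * K' / ε) := by ring
      rw [hB, e9]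
      linarith
    · have e1 : x - x' = r x - r x' := by
        have a1 := hx x
        have a2 := hx x'
        rw [heq] at a1
        calc x - x' = ((2 ^ m : ℕ) • y x' + r x) - ((2 ^ m : ℕ) • y x' + r x') := by
              rw [← a1, ← a2]
          _ = r x - r x' := by abel
      rw [e1]
      have e2 := h_sub_le hnn hpar (r x) (r x')
      have e3 := hr x
      have e4 := hr x'
      have e5 : C ≤ 4 ^ m * C := by
        have : (1 : ℝ) ≤ 4 ^ m := one_le_pow₀ (by norm_num)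
        nlinarith
      have e6 : 4 ^ m * K' = 4 * (4 ^ m * K) + 4 ^ m * C + 4 ^ m := by rw [hK']; ring
      linarith
  · push Not at hu
    have hu' : ε * t < K' := by rwa [div_lt_one hK'pos] at hu
    refine ⟨id, fun x hxb => ?_, fun x x' hxb hxb' heq => ?_⟩
    · rw [Set.Finite.mem_toFinset, Set.mem_ofPred_eq, id]
      have e1 : t ≤ K' / ε := by rw [le_div_iff₀ hε]; linarith
      have e2 : ρ * t ≤ ρ * (K' / ε) := mul_le_mul_of_nonneg_left e1 hρ
      have e3 : 0 ≤ ρ * (K' / ε) := by positivity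
      have e4 : 8 * ρ * K' / ε = 8 * (ρ * (K' / ε)) := by ring
      rw [hB, e4]
      linarith
    · have : x = x' := heq
      rw [this, sub_self, h0]
      positivity

end Pool.Agent.Work.MP_684405_nt
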