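import Mathlib

/-!
# The approximate parallelogram law for the naive height

For Weierstrass curves `y² = x³ + a₂ x² + a₄ x + a₆` over `ℚ`.
-/

set_option autoImplicit false

namespace Pool.Agent.Work.MP_684405_nt

open WeierstrassCurve WeierstrassCurve.Affine WeierstrassCurve.Affine.Point Height MvPolynomial

variable (W : WeierstrassCurve.Affine ℚ)

/-- evaluation of the `addSubMap` -/
lemma addSubMap_eval (s t u : ℚ) : (fun i => (addSubMap W i).eval ![s, t, u]) =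
    ![s ^ 2 - W.b₄ * s * u - W.b₆ * t * u - W.b₈ * u ^ 2,
      2 * t * s + W.b₂ * s * u + W.b₄ * t * u + W.b₆ * u ^ 2,
      t ^ 2 - 4 * s * u] := by
  ext i
  fin_cases i <;> simp [addSubMap]

variable {W}

lemma eqn_of_nonsingular (h1 : W.a₁ = 0) (h3 : W.a₃ = 0) {x y : ℚ} (h : W.Nonsingular x y) :
    y ^ 2 = x ^ 3 + W.a₂ * x ^ 2 + W.a₄ * x + W.a₆ := by
  have := (W.equation_iff x y).1 h.1
  rw [h1, h3] at this
  linarith

/-- The generic case. -/
lemma addSub_generic (h1 : W.a₁ = 0) (h3 : W.a₃ = 0) {x₁ y₁ x₂ y₂ : ℚ}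
    (hP : W.Nonsingular x₁ y₁) (hQ : W.Nonsingular x₂ y₂) (hx : x₁ ≠ x₂) :
    (fun i => (addSubMap W i).eval ((some x₁ y₁ hP).sym2x (some x₂ y₂ hQ))) =
      ((x₁ - x₂) ^ 2) • (some x₁ y₁ hP + some x₂ y₂ hQ).sym2x (some x₁ y₁ hP - some x₂ y₂ hQ) := by
  have e1 := eqn_of_nonsingular h1 h3 hP
  have e2 := eqn_of_nonsingular h1 h3 hQ
  have hd : x₁ - x₂ ≠ 0 := sub_ne_zero.2 hx
  have hb2 : W.b₂ = 4 * W.a₂ := by rw [WeierstrassCurve.b₂, h1]; ring
  have hb4 : W.b₄ = 2 * W.a₄ := by rw [WeierstrassCurve.b₄, h1, h3]; ring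
  have hb6 : W.b₆ = 4 * W.a₆ := by rw [WeierstrassCurve.b₆, h3]; ring
  have hb8 : W.b₈ = 4 * W.a₂ * W.a₆ - W.a₄ ^ 2 := by rw [WeierstrassCurve.b₈, h1, h3]; ring
  rw [sym2x_some_some, addSubMap_eval, sub_eq_add_neg (some x₁ y₁ hP) (some x₂ y₂ hQ), neg_some,
    add_of_X_ne hx, add_of_X_ne hx, sym2x_some_some, slope_of_X_ne hx, slope_of_X_ne hx]
  simp only [addX, negY, h1, h3, hb2, hb4, hb6, hb8]
  ext i
  fin_cases i
  · simp
    field_simp
    linear_combination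
      (-(y₁ ^ 2 - y₂ ^ 2 + (x₁ ^ 3 + W.a₂ * x₁ ^ 2 + W.a₄ * x₁ + W.a₆)
          - (x₂ ^ 3 + W.a₂ * x₂ ^ 2 + W.a₄ * x₂ + W.a₆))
        + 2 * ((W.a₂ + x₁ + x₂) * (x₁ - x₂) ^ 2)) * e1
      + ((y₁ ^ 2 - y₂ ^ 2 + (x₁ ^ 3 + W.a₂ * x₁ ^ 2 + W.a₄ * x₁ + W.a₆)
          - (x₂ ^ 3 + W.a₂ * x₂ ^ 2 + W.a₄ * x₂ + W.a₆))
        + 2 * ((W.a₂ + x₁ + x₂) * (x₁ - x₂) ^ 2)) * e2
  · simp
    field_simp
    linear_combination (-2) * e1 + (-2) * e2
  · simp
    ring

/-- Doubling case. -/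
lemma addSub_double (h1 : W.a₁ = 0) (h3 : W.a₃ = 0) (hell : W.IsElliptic) {x y : ℚ}
    (hP : W.Nonsingular x y) :
    ∃ l : ℚ, l ≠ 0 ∧ (fun i => (addSubMap W i).eval ((some x y hP).sym2x (some x y hP))) =
      l • (some x y hP + some x y hP).sym2x 0 := by
  have e1 := eqn_of_nonsingular h1 h3 hP
  have hb2 : W.b₂ = 4 * W.a₂ := by rw [WeierstrassCurve.b₂, h1]; ring
  have hb4 : W.b₄ = 2 * W.a₄ := by rw [WeierstrassCurve.b₄, h1, h3]; ring
  have hb6 : W.b₆ = 4 * W.a₆ := by rw [WeierstrassCurve.b₆, h3]; ring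
  have hb8 : W.b₈ = 4 * W.a₂ * W.a₆ - W.a₄ ^ 2 := by rw [WeierstrassCurve.b₈, h1, h3]; ring
  by_cases hy : y = 0
  · -- two-torsion
    have hy' : y = W.negY x y := by simp [negY, h1, h3, hy]
    rw [add_self_of_Y_eq hy', sym2x_zero_zero]
    have hne := addSubMap_ne_zero W (sym2x_ne_zero (some x y hP) (some x y hP))
    rw [sym2x_some_some, addSubMap_eval] at hne ⊢
    have h2 : 2 * (x + x) * (x * x) + W.b₂ * (x * x) * 1 + W.b₄ * (x + x) * 1 + W.b₆ * 1 ^ 2 = 0 := by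
      rw [hb2, hb4, hb6]
      rw [hy] at e1
      linear_combination (-4) * e1
    have h3' : (x + x) ^ 2 - 4 * (x * x) * 1 = 0 := by ring
    rw [h2, h3'] at hne ⊢
    refine ⟨(x * x) ^ 2 - W.b₄ * (x * x) * 1 - W.b₆ * (x + x) * 1 - W.b₈ * 1 ^ 2, ?_, ?_⟩
    · intro h0
      rw [h0] at hne
      apply hne
      ext i
      fin_cases i <;> rfl
    · ext i
      fin_cases i <;> simp
  · have hy' : y ≠ W.negY x y := by
      simp only [negY, h1, h3]
      intro h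
      apply hy
      linarith
    rw [add_self_of_Y_ne hy', sym2x_some_zero, sym2x_some_some, addSubMap_eval]
    refine ⟨(2 * y) ^ 2, by positivity, ?_⟩
    rw [slope_of_Y_ne rfl hy']
    simp only [addX, negY, h1, h3, hb2, hb4, hb6, hb8]
    have e3 : y - (-y - 0 * x - 0) = 2 * y := by ring
    rw [e3]
    ext i
    fin_cases i
    · simp
      field_simp
      linear_combination (4 * W.a₂ + 8 * x) * e1
    · simp
      linear_combination (-4) * e1
    · simp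
      ring

/-- `addSubMap` does what it should (projectively). -/
theorem addSub_spec (h1 : W.a₁ = 0) (h3 : W.a₃ = 0) (hell : W.IsElliptic) (P Q : W.Point) :
    ∃ l : ℚ, l ≠ 0 ∧ (fun i => (addSubMap W i).eval (P.sym2x Q)) =
      l • (P + Q).sym2x (P - Q) := by
  rcases P with _ | ⟨x₁, y₁, hP⟩
  · rcases Q with _ | ⟨x₂, y₂, hQ⟩
    · refine ⟨1, one_ne_zero, ?_⟩
      rw [← zero_def, add_zero, sub_zero, sym2x_zero_zero, addSubMap_eval]
      ext i
      fin_cases i <;> simp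
    · refine ⟨1, one_ne_zero, ?_⟩
      rw [← zero_def, zero_add, zero_sub, sym2x_zero_some, neg_some, sym2x_some_some,
        addSubMap_eval]
      ext i
      fin_cases i <;> simp <;> ring
  · rcases Q with _ | ⟨x₂, y₂, hQ⟩
    · refine ⟨1, one_ne_zero, ?_⟩
      rw [← zero_def, add_zero, sub_zero, sym2x_some_zero, sym2x_some_some, addSubMap_eval]
      ext i
      fin_cases i <;> simp <;> ring
    · by_cases hx : x₁ = x₂
      · obtain ⟨l, hl, h⟩ := addSub_double h1 h3 hell hP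
        rcases (X_eq_iff (h₁ := hP) (h₂ := hQ)).1 hx with hPQ | hPQ
        · rw [← hPQ, sub_self]
          exact ⟨l, hl, h⟩
        · have hQP : some x₂ y₂ hQ = -some x₁ y₁ hP := by rw [hPQ, neg_neg]
          rw [hQP, sym2x_neg_right, sub_neg_eq_add, add_neg_cancel, sym2x_comm 0]
          exact ⟨l, hl, h⟩
      · exact ⟨(x₁ - x₂) ^ 2, pow_ne_zero 2 (sub_ne_zero.2 hx), addSub_generic h1 h3 hP hQ hx⟩

/-- The naive height of a point. -/
noncomputable def hgt (P : W.Point) : ℝ := logHeight P.xRep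

lemma hgt_nonneg (P : W.Point) : 0 ≤ hgt P := logHeight_nonneg _

lemma hgt_neg (P : W.Point) : hgt (-P) = hgt P := by simp [hgt]

lemma hgt_some {x y : ℚ} (h : W.Nonsingular x y) : hgt (some x y h) = logHeight₁ x := by
  rw [hgt, xRep_some, logHeight₁_eq_logHeight]

lemma hgt_zero : hgt (0 : W.Point) = 0 := by
  rw [hgt, xRep_zero]
  have h : logHeight ![(1 : ℚ), 0] = logHeight₁ (0 : ℚ) := by
    rw [logHeight₁_eq_logHeight, logHeight_swap]
  rw [h, logHeight₁_zero]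

/-- **Approximate parallelogram law.** -/
theorem hgt_parallelogram (h1 : W.a₁ = 0) (h3 : W.a₃ = 0) (hell : W.IsElliptic) :
    ∃ C : ℝ, ∀ P Q : W.Point, |hgt (P + Q) + hgt (P - Q) - 2 * (hgt P + hgt Q)| ≤ C := by
  obtain ⟨C₁, hC₁⟩ := abs_logHeight_sym2_sub_le ℚ
  obtain ⟨C₂, hC₂⟩ := abs_logHeight_addSubMap_sub_two_mul_logHeight_le W
  have key : ∀ P Q : W.Point, |logHeight (P.sym2x Q) - (hgt P + hgt Q)| ≤ C₁ := by
    intro P Q
    have hP : ![P.xRep 0, P.xRep 1] = P.xRep := by ext i; fin_cases i <;> rfl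
    have hQ : ![Q.xRep 0, Q.xRep 1] = Q.xRep := by ext i; fin_cases i <;> rfl
    have h := hC₁ (a := P.xRep 0) (b := P.xRep 1) (c := Q.xRep 0) (d := Q.xRep 1)
      (by rw [hP]; exact xRep_ne_zero P) (by rw [hQ]; exact xRep_ne_zero Q)
    rw [hP, hQ] at h
    exact h
  refine ⟨3 * C₁ + C₂, fun P Q => ?_⟩
  obtain ⟨l, hl, h⟩ := addSub_spec h1 h3 hell P Q
  have k1 := key P Q
  have k2 := key (P + Q) (P - Q)
  have k3 := hC₂ (P.sym2x Q)
  rw [h, logHeight_smul_eq_logHeight _ hl] at k3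
  rw [abs_le] at k1 k2 k3 ⊢
  constructor <;> linarith [k1.1, k1.2, k2.1, k2.2, k3.1, k3.2]

end Pool.Agent.Work.MP_684405_nt
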