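import Mathlib
import Pool.Agent.Work.MP_684405_nt.Height

/-!
# Weak Mordell-Weil for curves with full rational two-torsion
-/

set_option autoImplicit false

namespace Pool.Agent.Work.MP_684405_nt

open WeierstrassCurve WeierstrassCurve.Affine WeierstrassCurve.Affine.Point Height

/-- The curve `y² = (x - a) (x - b) (x - c)`. -/
def crv (a b c : ℚ) : WeierstrassCurve.Affine ℚ where
  a₁ := 0
  a₂ := -(a + b + c)
  a₃ := 0
  a₄ := a * b + b * c + c * a
  a₆ := -(a * b * c)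

variable {a b c : ℚ}

lemma crv_elliptic (hab : a ≠ b) (hbc : b ≠ c) (hca : c ≠ a) :
    (crv a b c).IsElliptic := by
  refine ⟨?_⟩
  have h : (crv a b c).Δ = 16 * ((a - b) * (b - c) * (c - a)) ^ 2 := by
    simp only [WeierstrassCurve.Δ, WeierstrassCurve.b₂, WeierstrassCurve.b₄,
      WeierstrassCurve.b₆, WeierstrassCurve.b₈, crv]
    ring
  rw [h, isUnit_iff_ne_zero]
  have h1 := sub_ne_zero.2 hab
  have h2 := sub_ne_zero.2 hbc
  have h3 := sub_ne_zero.2 hca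
  positivity

lemma crv_equation_iff (x y : ℚ) :
    (crv a b c).Equation x y ↔ y ^ 2 = (x - a) * (x - b) * (x - c) := by
  rw [equation_iff]
  simp only [crv]
  constructor <;> intro h <;> linarith

lemma crv_eqn {x y : ℚ} (h : (crv a b c).Nonsingular x y) :
    y ^ 2 = (x - a) * (x - b) * (x - c) := (crv_equation_iff x y).1 h.1

lemma crv_nonsingular (hab : a ≠ b) (hbc : b ≠ c) (hca : c ≠ a) {x y : ℚ}
    (h : y ^ 2 = (x - a) * (x - b) * (x - c)) : (crv a b c).Nonsingular x y := by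
  have := crv_elliptic hab hbc hca
  exact ((crv a b c).equation_iff_nonsingular).1 ((crv_equation_iff x y).2 h)

/-- The key addition formula (for the root `a`). -/
lemma add_formula_a {x₁ y₁ x₂ y₂ : ℚ} (e1 : y₁ ^ 2 = (x₁ - a) * (x₁ - b) * (x₁ - c))
    (e2 : y₂ ^ 2 = (x₂ - a) * (x₂ - b) * (x₂ - c)) (hx : x₁ ≠ x₂) :
    (((y₁ - y₂) / (x₁ - x₂)) ^ 2 + (a + b + c) - x₁ - x₂ - a) *
      ((x₁ - x₂) ^ 2 * ((x₁ - a) * (x₂ - a))) = (y₁ * (x₂ - a) - y₂ * (x₁ - a)) ^ 2 := by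
  have hd : x₁ - x₂ ≠ 0 := sub_ne_zero.2 hx
  field_simp
  linear_combination ((x₁ - x₂) * (x₂ - a)) * e1 - ((x₁ - x₂) * (x₁ - a)) * e2

/-- Halving. -/
lemma exists_half (hab : a ≠ b) (hbc : b ≠ c) (hca : c ≠ a) {x y : ℚ}
    (h : (crv a b c).Nonsingular x y) (ha : IsSquare (x - a)) (hb : IsSquare (x - b))
    (hc : IsSquare (x - c)) :
    ∃ R : (crv a b c).Point, some x y h = (2 : ℕ) • R := by
  obtain ⟨α, hα⟩ := ha
  obtain ⟨β, hβ⟩ := hb
  obtain ⟨γ, hγ⟩ := hc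
  have e := crv_eqn h
  -- choose the signs
  obtain ⟨α, hα, hy⟩ : ∃ α : ℚ, x - a = α * α ∧ y = α * β * γ := by
    have h1 : (y - α * β * γ) * (y + α * β * γ) = 0 := by
      have : y ^ 2 = (α * α) * (β * β) * (γ * γ) := by rw [e, hα, hβ, hγ]
      linear_combination this
    rcases mul_eq_zero.1 h1 with h2 | h2
    · exact ⟨α, hα, by linarith⟩
    · exact ⟨-α, by rw [hα]; ring, by linarith⟩
  obtain rfl : a = x - α * α := by linarith
  obtain rfl : b = x - β * β := by linarith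
  obtain rfl : c = x - γ * γ := by linarith
  have n1 : α + β ≠ 0 := by
    intro h0
    apply hab
    have : α = -β := by linarith
    rw [this]; ring
  have n2 : β + γ ≠ 0 := by
    intro h0
    apply hbc
    have : β = -γ := by linarith
    rw [this]; ring
  have n3 : γ + α ≠ 0 := by
    intro h0
    apply hca
    have : γ = -α := by linarith
    rw [this]; ring
  set X : ℚ := x + α * β + β * γ + γ * α with hX
  set Y : ℚ := (α + β) * (β + γ) * (γ + α) with hY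
  have hYne : Y ≠ 0 := by rw [hY]; positivity
  have hns : (crv (x - α * α) (x - β * β) (x - γ * γ)).Nonsingular X Y := by
    apply crv_nonsingular hab hbc hca
    rw [hX, hY]; ring
  refine ⟨some X Y hns, ?_⟩
  have hYneg : Y ≠ (crv (x - α * α) (x - β * β) (x - γ * γ)).negY X Y := by
    simp only [negY, crv]
    intro h0
    apply hYne
    linarith
  rw [two_nsmul, add_self_of_Y_ne hYneg]
  have hsl : (crv (x - α * α) (x - β * β) (x - γ * γ)).slope X X Y Y = α + β + γ := by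
    rw [slope_of_Y_ne rfl hYneg]
    simp only [negY, crv]
    have h2 : Y - (-Y - 0 * X - 0) = 2 * Y := by ring
    rw [h2, div_eq_iff (by positivity)]
    rw [hX, hY]; ring
  simp only [some.injEq]
  rw [hsl]
  constructor
  · simp only [addX, crv]
    rw [hX]; ring
  · simp only [addY, negAddY, negY, addX, crv]
    rw [hX, hY, hy]; ring

/-- The square class of `x - a` is represented by a bounded integer. -/
lemma exists_class (a b c : ℤ) (hab : a ≠ b) (hac : a ≠ c) {x y : ℚ} (hy : y ≠ 0)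
    (e : y ^ 2 = (x - a) * (x - b) * (x - c)) :
    ∃ d : ℤ, d ≠ 0 ∧ |d| ≤ |(a - b) * (a - c)| ∧ IsSquare ((d : ℚ) * (x - a)) := by
  set u : ℤ := x.num with hu
  set v : ℤ := (x.den : ℤ) with hv
  have hv0 : 0 < v := by rw [hv]; exact_mod_cast x.den_pos
  have hvq : (v : ℚ) ≠ 0 := by exact_mod_cast hv0.ne'
  have hx : x = u / v := by
    rw [hu, hv]; push_cast; exact (Rat.num_div_den x).symm
  have hcop : IsCoprime u v := by
    rw [hu, hv]; exact Rat.isCoprime_num_den x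
  set A₁ : ℤ := u - a * v with hA₁
  set A₂ : ℤ := u - b * v with hA₂
  set A₃ : ℤ := u - c * v with hA₃
  have hc1 : IsCoprime A₁ v := by
    have h0 : A₁ = u + -a * v := by rw [hA₁]; ring
    rw [h0]
    exact hcop.add_mul_right_left (-a)
  have hc2 : IsCoprime A₂ v := by
    have h0 : A₂ = u + -b * v := by rw [hA₂]; ring
    rw [h0]
    exact hcop.add_mul_right_left (-b)
  have hc3 : IsCoprime A₃ v := by
    have h0 : A₃ = u + -c * v := by rw [hA₃]; ring
    rw [h0]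
    exact hcop.add_mul_right_left (-c)
  have hxa : x - a = A₁ / v := by rw [hx, hA₁]; push_cast; field_simp
  have hxb : x - b = A₂ / v := by rw [hx, hA₂]; push_cast; field_simp
  have hxc : x - c = A₃ / v := by rw [hx, hA₃]; push_cast; field_simp
  have hprod : (((A₁ * A₂ * A₃) * v : ℤ) : ℚ) = (y * v ^ 2) * (y * v ^ 2) := by
    have : (y * v ^ 2) * (y * v ^ 2) = y ^ 2 * v ^ 4 := by ring
    rw [this, e, hxa, hxb, hxc]
    push_cast
    field_simp
  obtain ⟨n, hn⟩ : IsSquare ((A₁ * A₂ * A₃) * v) :=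
    Rat.isSquare_intCast_iff.1 ⟨y * v ^ 2, hprod⟩
  have hnne : n ≠ 0 := by
    rintro rfl
    have h1 : (y * v ^ 2) * (y * v ^ 2) = 0 := by rw [← hprod, hn]; simp
    have h2 : y * v ^ 2 ≠ 0 := by positivity
    exact h2 (mul_self_eq_zero.1 h1)
  -- `v` is a square
  obtain ⟨v0, hv0'⟩ : ∃ v0 : ℤ, v = v0 ^ 2 := by
    have hcop' : IsCoprime v (A₁ * A₂ * A₃) := ((hc1.mul_left hc2).mul_left hc3).symm
    obtain ⟨v0, h | h⟩ := Int.sq_of_isCoprime hcop' (by rw [mul_comm, hn, sq])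
    · exact ⟨v0, h⟩
    · exfalso
      have : 0 ≤ v0 ^ 2 := sq_nonneg v0
      linarith
  have hv0ne : (v0 : ℚ) ≠ 0 := by
    intro h0
    apply hvq
    rw [hv0']; push_cast; rw [h0]; ring
  have hA₁ne : A₁ ≠ 0 := by
    rintro h0
    rw [h0] at hn
    simp at hn
    exact hnne hn
  -- the gcd
  have hgpos : 0 < Int.gcd A₁ (A₂ * A₃) := Int.gcd_pos_of_ne_zero_left _ hA₁ne
  obtain ⟨A₁', B', hgcd, hAg, hBg⟩ := Int.exists_gcd_one hgpos
  set g : ℤ := (Int.gcd A₁ (A₂ * A₃) : ℤ) with hg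
  have hgpos' : 0 < g := by rw [hg]; exact_mod_cast hgpos
  have hcopAB : IsCoprime A₁' B' := Int.isCoprime_iff_gcd_eq_one.2 hgcd
  have hcopAv : IsCoprime A₁' v := IsCoprime.of_isCoprime_of_dvd_left hc1 ⟨g, hAg⟩
  have hgv : IsCoprime g v := IsCoprime.of_isCoprime_of_dvd_left hc1 ⟨A₁', by rw [hAg]; ring⟩
  have hgn : g ∣ n := by
    have h1 : g ^ 2 ∣ n ^ 2 := ⟨A₁' * B' * v, by
      have : n ^ 2 = (A₁ * (A₂ * A₃)) * v := by rw [sq, ← hn]; ring
      rw [this, hAg, hBg]; ring⟩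
    exact (Int.pow_dvd_pow_iff two_ne_zero).1 h1
  obtain ⟨n', hn'⟩ := hgn
  have hn2 : A₁' * (B' * v) = n' ^ 2 := by
    have h1 : g ^ 2 * (A₁' * (B' * v)) = g ^ 2 * n' ^ 2 := by
      have h2 : n ^ 2 = (A₁ * (A₂ * A₃)) * v := by rw [sq, ← hn]; ring
      rw [hAg, hBg, hn'] at h2
      linarith
    exact mul_left_cancel₀ (pow_ne_zero 2 hgpos'.ne') h1
  have hgdvd : g ∣ (a - b) * (a - c) := by
    have h1 : g ∣ A₁ := ⟨A₁', by rw [hAg]; ring⟩
    have h2 : g ∣ A₂ * A₃ := ⟨B', by rw [hBg]; ring⟩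
    have h3 : g ∣ ((a - b) * (a - c)) * v ^ 2 := by
      have e1 : ((a - b) * (a - c)) * v ^ 2 = A₂ * A₃ - A₁ * (A₁ + (a - b) * v + (a - c) * v) := by
        rw [hA₁, hA₂, hA₃]; ring
      rw [e1]
      exact dvd_sub h2 (h1.mul_right _)
    exact (hgv.pow_right (n := 2)).dvd_of_dvd_mul_right h3
  have hzne : (a - b) * (a - c) ≠ 0 := mul_ne_zero (sub_ne_zero.2 hab) (sub_ne_zero.2 hac)
  have hgle : g ≤ |(a - b) * (a - c)| :=
    Int.le_of_dvd (abs_pos.2 hzne) ((dvd_abs _ _).2 hgdvd)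
  have hcop2 : IsCoprime A₁' (B' * v) := hcopAB.mul_right hcopAv
  obtain ⟨m, hm | hm⟩ := Int.sq_of_isCoprime hcop2 hn2
  · refine ⟨g, hgpos'.ne', by rwa [abs_of_pos hgpos'], ⟨g * m / v0, ?_⟩⟩
    rw [hxa, hAg, hm, hv0']
    push_cast
    field_simp
  · refine ⟨-g, by simpa using hgpos'.ne', by rwa [abs_neg, abs_of_pos hgpos'], ⟨g * m / v0, ?_⟩⟩
    rw [hxa, hAg, hm, hv0']
    push_cast
    field_simp

lemma isSquare_mul_of_class {d : ℚ} (hd : d ≠ 0) {p q : ℚ} (hp : IsSquare (d * p))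
    (hq : IsSquare (d * q)) : IsSquare (p * q) := by
  obtain ⟨u, hu⟩ := hp
  obtain ⟨v, hv⟩ := hq
  refine ⟨u * v / d, ?_⟩
  have h1 : d ^ 2 * (p * q) = (u * v) ^ 2 := by
    calc d ^ 2 * (p * q) = (d * p) * (d * q) := by ring
      _ = (u * v) ^ 2 := by rw [hu, hv]; ring
  field_simp
  linarith

/-- if `(x₁-a)(x₂-a)` is a nonzero square then `x₃ - a` is a square, `x₃` the `x`-coordinate
of the sum. -/
lemma isSquare_add {x₁ y₁ x₂ y₂ : ℚ} (e1 : y₁ ^ 2 = (x₁ - a) * (x₁ - b) * (x₁ - c))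
    (e2 : y₂ ^ 2 = (x₂ - a) * (x₂ - b) * (x₂ - c)) (hx : x₁ ≠ x₂) (h1 : x₁ - a ≠ 0)
    (h2 : x₂ - a ≠ 0) (hsq : IsSquare ((x₁ - a) * (x₂ - a))) :
    IsSquare (((y₁ - y₂) / (x₁ - x₂)) ^ 2 + (a + b + c) - x₁ - x₂ - a) := by
  obtain ⟨u, hu⟩ := hsq
  have hune : u ≠ 0 := by
    rintro rfl
    have : (x₁ - a) * (x₂ - a) ≠ 0 := mul_ne_zero h1 h2
    apply this
    rw [hu]; ring
  have hd : x₁ - x₂ ≠ 0 := sub_ne_zero.2 hx
  have h := add_formula_a e1 e2 hx
  refine ⟨(y₁ * (x₂ - a) - y₂ * (x₁ - a)) / ((x₁ - x₂) * u), ?_⟩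
  rw [hu] at h
  have h3 : (x₁ - x₂) ^ 2 * (u * u) ≠ 0 := by positivity
  rw [← mul_left_inj' h3, h]
  field_simp

/-- Two points in the same class differ by an element of `2 E`. -/
lemma sub_mem_two (hab : a ≠ b) (hbc : b ≠ c) (hca : c ≠ a) {x₁ y₁ x₂ y₂ : ℚ}
    (hP : (crv a b c).Nonsingular x₁ y₁) (hQ : (crv a b c).Nonsingular x₂ y₂)
    (hy₁ : y₁ ≠ 0) (hy₂ : y₂ ≠ 0)
    (hsa : IsSquare ((x₁ - a) * (x₂ - a))) (hsb : IsSquare ((x₁ - b) * (x₂ - b))) :
    ∃ R : (crv a b c).Point, some x₁ y₁ hP - some x₂ y₂ hQ = (2 : ℕ) • R := by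
  by_cases hx : x₁ = x₂
  · rcases (X_eq_iff (h₁ := hP) (h₂ := hQ)).1 hx with h | h
    · exact ⟨0, by rw [h, sub_self, nsmul_zero]⟩
    · refine ⟨some x₁ y₁ hP, ?_⟩
      have : some x₂ y₂ hQ = - some x₁ y₁ hP := by rw [h, neg_neg]
      rw [this, sub_neg_eq_add, two_nsmul]
  · have e1 := crv_eqn hP
    have e2 := crv_eqn hQ
    have n1 : (x₁ - a) * (x₁ - b) * (x₁ - c) ≠ 0 := by rw [← e1]; positivity
    have n2 : (x₂ - a) * (x₂ - b) * (x₂ - c) ≠ 0 := by rw [← e2]; positivity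
    have n1c : x₁ - c ≠ 0 := right_ne_zero_of_mul n1
    have n1b : x₁ - b ≠ 0 := right_ne_zero_of_mul (left_ne_zero_of_mul n1)
    have n1a : x₁ - a ≠ 0 := left_ne_zero_of_mul (left_ne_zero_of_mul n1)
    have n2c : x₂ - c ≠ 0 := right_ne_zero_of_mul n2
    have n2b : x₂ - b ≠ 0 := right_ne_zero_of_mul (left_ne_zero_of_mul n2)
    have n2a : x₂ - a ≠ 0 := left_ne_zero_of_mul (left_ne_zero_of_mul n2)
    have hsc : IsSquare ((x₁ - c) * (x₂ - c)) := by
      obtain ⟨p, hp⟩ := hsa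
      obtain ⟨q, hq⟩ := hsb
      have hpne : p ≠ 0 := by
        rintro rfl
        exact mul_ne_zero n1a n2a (by rw [hp]; ring)
      have hqne : q ≠ 0 := by
        rintro rfl
        exact mul_ne_zero n1b n2b (by rw [hq]; ring)
      refine ⟨y₁ * y₂ / (p * q), ?_⟩
      have h1 : (y₁ * y₂) ^ 2 = (p * p) * (q * q) * ((x₁ - c) * (x₂ - c)) := by
        rw [mul_pow, e1, e2, ← hp, ← hq]; ring
      field_simp
      linarith
    rw [sub_eq_add_neg, neg_some, add_of_X_ne hx]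
    have e2' : (-y₂) ^ 2 = (x₂ - a) * (x₂ - b) * (x₂ - c) := by rw [neg_sq]; exact e2
    have hXeq : (crv a b c).addX x₁ x₂ ((crv a b c).slope x₁ x₂ y₁ ((crv a b c).negY x₂ y₂)) =
        ((y₁ - (-y₂)) / (x₁ - x₂)) ^ 2 + (a + b + c) - x₁ - x₂ := by
      rw [slope_of_X_ne hx]
      simp only [addX, negY, crv]
      ring
    have e1b : y₁ ^ 2 = (x₁ - b) * (x₁ - c) * (x₁ - a) := by rw [e1]; ring
    have e2b : (-y₂) ^ 2 = (x₂ - b) * (x₂ - c) * (x₂ - a) := by rw [e2']; ring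
    have e1c : y₁ ^ 2 = (x₁ - c) * (x₁ - a) * (x₁ - b) := by rw [e1]; ring
    have e2c : (-y₂) ^ 2 = (x₂ - c) * (x₂ - a) * (x₂ - b) := by rw [e2']; ring
    have s1 := isSquare_add e1 e2' hx n1a n2a hsa
    have s2 := isSquare_add e1b e2b hx n1b n2b hsb
    have s3 := isSquare_add e1c e2c hx n1c n2c hsc
    apply exists_half hab hbc hca
    · rw [hXeq]; exact s1
    · rw [hXeq]; convert s2 using 1; ring
    · rw [hXeq]; convert s3 using 1; ring

/-- Northcott property for points. -/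
lemma hgt_finite (W : WeierstrassCurve.Affine ℚ) (B : ℝ) : {P : W.Point | hgt P ≤ B}.Finite := by
  apply Set.Finite.of_finite_fibers (fun P : W.Point => P.xRep)
  · apply Set.Finite.subset (s := insert ![1, 0]
      ((fun x : ℚ => ![x, 1]) '' {x : ℚ | logHeight₁ x ≤ B}))
    · exact ((NumberField.finite_setOfPred_logHeight₁_le ℚ B).image _).insert _
    · rintro _ ⟨P, hP, rfl⟩
      rcases P with _ | ⟨x, y, h⟩
      · left; exact xRep_zero
      · right
        refine ⟨x, ?_, (xRep_some h).symm⟩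
        rw [Set.mem_ofPred_eq, hgt_some] at hP
        exact hP
  · rintro _ ⟨P, hP, rfl⟩
    apply Set.Finite.subset (s := {P, -P}) (by simp)
    rintro Q ⟨-, hQ⟩
    have : Q.xRep = P.xRep := hQ
    rcases xRep_eq_xRep_iff.1 this with h | h
    · left; exact h
    · right; exact h

/-- **Weak Mordell-Weil**. -/
theorem crv_cover (a b c : ℤ) (hab : a ≠ b) (hbc : b ≠ c) (hca : c ≠ a) :
    ∃ S : Set (crv (a : ℚ) b c).Point, S.Finite ∧ ∀ x, ∃ s ∈ S, ∃ y, x = (2 : ℕ) • y + s := by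
  classical
  have habq : (a : ℚ) ≠ b := by exact_mod_cast hab
  have hbcq : (b : ℚ) ≠ c := by exact_mod_cast hbc
  have hcaq : (c : ℚ) ≠ a := by exact_mod_cast hca
  let Rel : ℤ × ℤ → (crv (a : ℚ) b c).Point → Prop := fun d P =>
    ∃ (x y : ℚ) (h : (crv (a : ℚ) b c).Nonsingular x y), P = some x y h ∧ y ≠ 0 ∧ d.1 ≠ 0 ∧
      d.2 ≠ 0 ∧ IsSquare ((d.1 : ℚ) * (x - a)) ∧ IsSquare ((d.2 : ℚ) * (x - b))
  let r : ℤ × ℤ → (crv (a : ℚ) b c).Point := fun d =>
    if h : ∃ P, Rel d P then h.choose else 0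
  have hr : ∀ d P, Rel d P → Rel d (r d) := by
    intro d P hP
    have h : ∃ P, Rel d P := ⟨P, hP⟩
    have : r d = h.choose := dif_pos h
    rw [this]
    exact h.choose_spec
  set Dl : ℤ := |(a - b) * (a - c)| + |(b - c) * (b - a)| with hDl
  let D : Finset (ℤ × ℤ) := Finset.Icc (-Dl) Dl ×ˢ Finset.Icc (-Dl) Dl
  set B0 : ℝ := logHeight₁ (a : ℚ) + logHeight₁ (b : ℚ) + logHeight₁ (c : ℚ) with hB0
  refine ⟨{P | hgt P ≤ B0} ∪ r '' D, (hgt_finite _ _).union (D.finite_toSet.image r), ?_⟩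
  intro P
  by_cases hPB : hgt P ≤ B0
  · exact ⟨P, Or.inl hPB, 0, by simp⟩
  · have na := zero_le_logHeight₁ (a : ℚ)
    have nb := zero_le_logHeight₁ (b : ℚ)
    have nc := zero_le_logHeight₁ (c : ℚ)
    rcases P with _ | ⟨x, y, h⟩
    · exfalso
      apply hPB
      rw [← zero_def, hgt_zero]
      positivity
    · have e := crv_eqn h
      have hy : y ≠ 0 := by
        rintro rfl
        apply hPB
        rw [hgt_some]
        have : (x - a) * (x - b) * (x - c) = 0 := by rw [← e]; ring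
        rcases mul_eq_zero.1 this with h1 | h1
        · rcases mul_eq_zero.1 h1 with h2 | h2
          · rw [sub_eq_zero.1 h2]; linarith
          · rw [sub_eq_zero.1 h2]; linarith
        · rw [sub_eq_zero.1 h1]; linarith
      obtain ⟨d₁, h1, h2, h3⟩ := exists_class a b c hab (Ne.symm hca) hy e
      obtain ⟨d₂, h4, h5, h6⟩ := exists_class b c a hbc (Ne.symm hab) hy
        (show y ^ 2 = (x - b) * (x - c) * (x - a) by rw [e]; ring)
      have hRel : Rel (d₁, d₂) (some x y h) := ⟨x, y, h, rfl, hy, h1, h4, h3, h6⟩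
      have hmem : (d₁, d₂) ∈ D := by
        simp only [D, Finset.mem_product, Finset.mem_Icc, ← abs_le]
        constructor
        · rw [hDl]; linarith [abs_nonneg ((b - c) * (b - a))]
        · rw [hDl]; linarith [abs_nonneg ((a - b) * (a - c))]
      refine ⟨r (d₁, d₂), Or.inr ⟨(d₁, d₂), hmem, rfl⟩, ?_⟩
      obtain ⟨x', y', h', hr1, hy', -, -, g3, g6⟩ := hr _ _ hRel
      rw [hr1]
      obtain ⟨R, hR⟩ := sub_mem_two habq hbcq hcaq h h' hy hy'
        (isSquare_mul_of_class (by exact_mod_cast h1) h3 g3)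
        (isSquare_mul_of_class (by exact_mod_cast h4) h6 g6)
      exact ⟨R, by rw [← hR]; abel⟩

end Pool.Agent.Work.MP_684405_nt
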