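import Mathlib
import Pool.Agent.Work.MP_684405_nt.WeakMW

/-!
# The gap principle
-/

set_option autoImplicit false

namespace Pool.Agent.Work.MP_684405_nt

open Finset

/-- Seven squares `n i ^ 2 = x + t i * D` in a progression with `gcd (x, D) = 1`. -/
structure PrimPt (t : Fin 7 → ℤ) where
  n : Fin 7 → ℤ
  D : ℤ
  x : ℤ
  npos : ∀ i, 0 < n i
  Dpos : 0 < D
  eqn : ∀ i, n i ^ 2 = x + t i * D
  cop : IsCoprime x D

/-- ordered quadruples of distinct indices -/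
abbrev Quad := {q : Fin 4 → Fin 7 // Function.Injective q}

/-- The product of all differences. -/
def dl (t : Fin 7 → ℤ) : ℤ := ∏ p ∈ (univ : Finset (Fin 7)).offDiag, (t p.1 - t p.2)

lemma dl_ne_zero {t : Fin 7 → ℤ} (ht : Function.Injective t) : dl t ≠ 0 := by
  rw [dl, prod_ne_zero_iff]
  rintro ⟨i, j⟩ hij
  have : i ≠ j := (mem_offDiag.1 hij).2.2
  exact sub_ne_zero.2 fun h => this (ht h)

lemma sub_dvd_dl (t : Fin 7 → ℤ) {i j : Fin 7} (hij : i ≠ j) : t i - t j ∣ dl t :=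
  dvd_prod_of_mem (fun p : Fin 7 × Fin 7 => t p.1 - t p.2)
    (show (i, j) ∈ (univ : Finset (Fin 7)).offDiag from
      mem_offDiag.2 ⟨mem_univ _, mem_univ _, hij⟩)

/-- `p^ν` divides two of the `n i` only if it divides `dl t`. -/
lemma dvd_dl_of_dvd {t : Fin 7 → ℤ} (P : PrimPt t) {i j : Fin 7} (hij : i ≠ j) {z : ℤ}
    (hi : z ∣ P.n i) (hj : z ∣ P.n j) : z ∣ dl t := by
  refine dvd_trans ?_ (sub_dvd_dl t hij)
  have h1 : z ∣ P.n i ^ 2 := dvd_pow hi two_ne_zero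
  have h2 : z ∣ P.n j ^ 2 := dvd_pow hj two_ne_zero
  obtain ⟨u, v, huv⟩ := P.cop
  have e1 : (t i - t j) * P.D = P.n i ^ 2 - P.n j ^ 2 := by rw [P.eqn, P.eqn]; ring
  have e2 : (t i - t j) * P.x = t i * P.n j ^ 2 - t j * P.n i ^ 2 := by rw [P.eqn, P.eqn]; ring
  have e3 : t i - t j = u * ((t i - t j) * P.x) + v * ((t i - t j) * P.D) := by
    linear_combination (-(t i - t j)) * huv
  rw [e3, e1, e2]
  exact dvd_add (((h2.mul_left _).sub (h1.mul_left _)).mul_left _) ((h1.sub h2).mul_left _)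

/-- An index is good for the prime `p`: the factor `n i` can be traded for `dl t`. -/
def Good (t : Fin 7 → ℤ) (p : ℤ) (a : ℤ) : Prop :=
  ∀ (e : ℕ) (z : ℤ), p ^ e ∣ a * z → p ^ e ∣ dl t * z

lemma good_of {t : Fin 7 → ℤ} {p : ℤ} (hp : Prime p) {a : ℤ} (ha : a ≠ 0)
    (h : ∀ ν : ℕ, p ^ ν ∣ a → p ^ ν ∣ dl t) : Good t p a := by
  intro e z hz
  have hfin : FiniteMultiplicity p a := by
    apply FiniteMultiplicity.of_prime_left hp ha
  obtain ⟨a', ha', hpa'⟩ := hfin.exists_eq_pow_mul_and_not_dvd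
  set ν := multiplicity p a with hν
  have h1 : p ^ ν ∣ dl t := h ν ⟨a', ha'⟩
  have hcop : IsCoprime (p ^ e) a' := by
    apply IsCoprime.pow_left
    exact (Prime.coprime_iff_not_dvd hp).2 hpa'
  have h2 : p ^ e ∣ a' * (p ^ ν * z) := by
    rw [ha'] at hz
    have : p ^ ν * a' * z = a' * (p ^ ν * z) := by ring
    rwa [this] at hz
  have h3 : p ^ e ∣ p ^ ν * z := hcop.dvd_of_dvd_mul_left h2
  exact h3.trans (mul_dvd_mul_right h1 z)

/-- At most one index is bad. -/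
lemma exists_bad {t : Fin 7 → ℤ} (P : PrimPt t) {p : ℤ} (hp : Prime p) :
    ∃ i₀ : Fin 7, ∀ i, i ≠ i₀ → Good t p (P.n i) := by
  by_cases hall : ∀ i, Good t p (P.n i)
  · exact ⟨0, fun i _ => hall i⟩
  · push Not at hall
    obtain ⟨i₀, hi₀⟩ := hall
    refine ⟨i₀, fun i hi => ?_⟩
    by_contra hbad
    have h1 : ∃ ν : ℕ, p ^ ν ∣ P.n i₀ ∧ ¬ p ^ ν ∣ dl t := by
      by_contra hcon
      push Not at hcon
      exact hi₀ (good_of hp (P.npos i₀).ne' hcon)
    have h2 : ∃ ν : ℕ, p ^ ν ∣ P.n i ∧ ¬ p ^ ν ∣ dl t := by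
      by_contra hcon
      push Not at hcon
      exact hbad (good_of hp (P.npos i).ne' hcon)
    obtain ⟨ν, hν, hν'⟩ := h1
    obtain ⟨μ, hμ, hμ'⟩ := h2
    rcases le_total ν μ with h | h
    · exact hν' (dvd_dl_of_dvd P hi ((pow_dvd_pow p h).trans hμ) hν)
    · exact hμ' (dvd_dl_of_dvd P hi hμ ((pow_dvd_pow p h).trans hν))

/-- Five indices which are good for both points. -/
lemma exists_five (i₀ j₀ : Fin 7) : ∃ g : Fin 5 → Fin 7, Function.Injective g ∧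
    ∀ a, g a ≠ i₀ ∧ g a ≠ j₀ := by
  classical
  set s : Finset (Fin 7) := (univ.erase i₀).erase j₀ with hs
  have hcard : 5 ≤ s.card := by
    have h1 : (univ.erase i₀ : Finset (Fin 7)).card = 6 := by
      rw [card_erase_of_mem (mem_univ _)]; simp
    have h2 := pred_card_le_card_erase (s := (univ.erase i₀ : Finset (Fin 7))) (a := j₀)
    rw [h1] at h2
    exact h2
  refine ⟨s.orderEmbOfCardLe hcard, (s.orderEmbOfCardLe hcard).injective, fun a => ?_⟩
  have h := s.orderEmbOfCardLe_mem hcard a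
  have h1 := mem_erase.1 h
  have h2 := mem_erase.1 h1.2
  exact ⟨h2.1, h1.1⟩

/-- The bilinear forms. -/
def Aq (n m : Fin 7 → ℤ) (q : Fin 4 → Fin 7) : ℤ :=
  n (q 1) * n (q 2) * m (q 0) * m (q 3) + m (q 1) * m (q 2) * n (q 0) * n (q 3)

/-- Step one: comparison of two ratios. -/
lemma step_one {t : Fin 7 → ℤ} {p : ℤ} {e : ℕ} {ni nj nk na nb mi mj mk ma mb : ℤ}
    (gmi : Good t p mi) (gmj : Good t p mj) (gnk : Good t p nk)
    (h1 : p ^ e ∣ ni * nj * mk * ma + mi * mj * nk * na)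
    (h2 : p ^ e ∣ ni * nj * mk * mb + mi * mj * nk * nb) :
    p ^ e ∣ dl t ^ 3 * (na * mb - nb * ma) := by
  have h3 : p ^ e ∣ mi * (mj * (nk * (na * mb - nb * ma))) := by
    have : mi * (mj * (nk * (na * mb - nb * ma))) =
        mb * (ni * nj * mk * ma + mi * mj * nk * na)
          - ma * (ni * nj * mk * mb + mi * mj * nk * nb) := by ring
    rw [this]
    exact (h1.mul_left _).sub (h2.mul_left _)
  have h4 := gmi e _ h3
  have h5 : p ^ e ∣ mj * (dl t * (nk * (na * mb - nb * ma))) := by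
    convert h4 using 1; ring
  have h6 := gmj e _ h5
  have h7 : p ^ e ∣ nk * (dl t * (dl t * (na * mb - nb * ma))) := by
    convert h6 using 1; ring
  have h8 := gnk e _ h7
  convert h8 using 1; ring

/-- A prime power dividing all `Aq` divides a constant. -/
lemma prime_pow_dvd {t : Fin 7 → ℤ} (P Q : PrimPt t) {p : ℤ} (hp : Prime p) {e : ℕ}
    (h : ∀ q : Quad, p ^ e ∣ Aq P.n Q.n q.1) : p ^ e ∣ 2 * dl t ^ 10 := by
  obtain ⟨i₀, hi₀⟩ := exists_bad P hp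
  obtain ⟨j₀, hj₀⟩ := exists_bad Q hp
  obtain ⟨g, hg, hgood⟩ := exists_five i₀ j₀
  set n : Fin 5 → ℤ := fun a => P.n (g a) with hn
  set m : Fin 5 → ℤ := fun a => Q.n (g a) with hm
  have gn : ∀ a, Good t p (n a) := fun a => hi₀ _ (hgood a).1
  have gm : ∀ a, Good t p (m a) := fun a => hj₀ _ (hgood a).2
  have hA : ∀ a b c d : Fin 5, a ≠ b → a ≠ c → a ≠ d → b ≠ c → b ≠ d → c ≠ d →
      p ^ e ∣ n a * n b * m c * m d + m a * m b * n c * n d := by
    intro a b c d hab hac had hbc hbd hcd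
    have hinj : Function.Injective (![g c, g a, g b, g d] : Fin 4 → Fin 7) := by
      intro u v huv
      fin_cases u <;> fin_cases v <;> simp at huv <;>
        first
        | rfl
        | (exfalso; have := hg huv; simp_all)
    have h1 := h ⟨_, hinj⟩
    simpa [Aq, hn, hm] using h1
  -- pair {0,2} with triple {1,3,4}
  have s1 : p ^ e ∣ dl t ^ 3 * (n 0 * m 2 - n 2 * m 0) :=
    step_one (gm 1) (gm 3) (gn 4)
      (hA 1 3 4 0 (by decide) (by decide) (by decide) (by decide) (by decide) (by decide))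
      (hA 1 3 4 2 (by decide) (by decide) (by decide) (by decide) (by decide) (by decide))
  -- pair {1,3} with triple {0,2,4}
  have s2 : p ^ e ∣ dl t ^ 3 * (n 1 * m 3 - n 3 * m 1) :=
    step_one (gm 0) (gm 2) (gn 4)
      (hA 0 2 4 1 (by decide) (by decide) (by decide) (by decide) (by decide) (by decide))
      (hA 0 2 4 3 (by decide) (by decide) (by decide) (by decide) (by decide) (by decide))
  have s3 : p ^ e ∣ n 0 * n 1 * m 2 * m 3 + m 0 * m 1 * n 2 * n 3 :=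
    hA 0 1 2 3 (by decide) (by decide) (by decide) (by decide) (by decide) (by decide)
  have s4 : p ^ e ∣ n 0 * (n 1 * (m 2 * (m 3 * (2 * dl t ^ 6)))) := by
    have : n 0 * (n 1 * (m 2 * (m 3 * (2 * dl t ^ 6)))) =
        dl t ^ 6 * (n 0 * n 1 * m 2 * m 3 + m 0 * m 1 * n 2 * n 3)
        + (dl t ^ 3 * (n 0 * m 2 - n 2 * m 0)) * (dl t ^ 3 * (n 1 * m 3))
        + (dl t ^ 3 * (n 1 * m 3 - n 3 * m 1)) * (dl t ^ 3 * (n 2 * m 0)) := by ring
    rw [this]
    exact ((s3.mul_left _).add (s1.mul_right _)).add (s2.mul_right _)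
  have s5 := gn 0 e _ s4
  have s6 : p ^ e ∣ n 1 * (dl t * (m 2 * (m 3 * (2 * dl t ^ 6)))) := by
    convert s5 using 1; ring
  have s7 := gn 1 e _ s6
  have s8 : p ^ e ∣ m 2 * (dl t * (dl t * (m 3 * (2 * dl t ^ 6)))) := by
    convert s7 using 1; ring
  have s9 := gm 2 e _ s8
  have s10 : p ^ e ∣ m 3 * (dl t * (dl t * (dl t * (2 * dl t ^ 6)))) := by
    convert s9 using 1; ring
  have s11 := gm 3 e _ s10
  convert s11 using 1; ring

lemma common_dvd {t : Fin 7 → ℤ} (P Q : PrimPt t) {G : ℤ}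
    (h : ∀ q : Quad, G ∣ Aq P.n Q.n q.1) : G ∣ 2 * dl t ^ 10 := by
  rw [← Int.natAbs_dvd_natAbs, Nat.dvd_iff_prime_pow_dvd_dvd]
  intro p k hp hpk
  have hpz : Prime (p : ℤ) := Nat.prime_iff_prime_int.1 hp
  have h1 : (p : ℤ) ^ k ∣ G := by
    rw [← Int.natAbs_dvd_natAbs, Int.natAbs_pow, Int.natAbs_natCast]
    exact hpk
  have h2 := prime_pow_dvd P Q hpz (e := k) fun q => h1.trans (h q)
  rw [← Int.natAbs_dvd_natAbs, Int.natAbs_pow, Int.natAbs_natCast] at h2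
  exact h2

/-- The determinant. -/
def Wd {t : Fin 7 → ℤ} (P Q : PrimPt t) : ℤ := P.D * Q.x - Q.D * P.x

/-- The denominators. -/
def wq {t : Fin 7 → ℤ} (P Q : PrimPt t) (q : Quad) : ℕ :=
  ((Aq P.n Q.n q.1 : ℚ) / (Wd P Q : ℚ)).den

lemma Wd_dvd {t : Fin 7 → ℤ} (P Q : PrimPt t) (hW : Wd P Q ≠ 0) (q : Quad) :
    Wd P Q ∣ (wq P Q q : ℤ) * Aq P.n Q.n q.1 := by
  set r : ℚ := (Aq P.n Q.n q.1 : ℚ) / (Wd P Q : ℚ) with hr
  have hWq : (Wd P Q : ℚ) ≠ 0 := by exact_mod_cast hW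
  refine ⟨r.num, ?_⟩
  have h1 : (r.num : ℚ) = r * r.den := (Rat.mul_den_eq_num r).symm
  have h2 : ((wq P Q q : ℤ) * Aq P.n Q.n q.1 : ℚ) = (Wd P Q : ℚ) * r.num := by
    rw [h1]
    have : (wq P Q q : ℤ) = (r.den : ℤ) := rfl
    rw [this, hr]
    field_simp
    push_cast
    ring
  exact_mod_cast h2

lemma Wd_dvd_prod {t : Fin 7 → ℤ} (P Q : PrimPt t) (hW : Wd P Q ≠ 0) :
    Wd P Q ∣ (2 * dl t ^ 10) * ∏ q : Quad, (wq P Q q : ℤ) := by
  set L : ℤ := ∏ q : Quad, (wq P Q q : ℤ) with hL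
  set G : ℤ := (univ : Finset Quad).gcd (fun q => Aq P.n Q.n q.1) with hG
  have h1 : G ∣ 2 * dl t ^ 10 := common_dvd P Q fun q => gcd_dvd (mem_univ q)
  have h2 : Wd P Q ∣ L * G := by
    have h3 : Wd P Q ∣ (univ : Finset Quad).gcd (fun q => L * Aq P.n Q.n q.1) := by
      apply Finset.dvd_gcd
      intro q _
      have h4 : (wq P Q q : ℤ) ∣ L := dvd_prod_of_mem (fun q => (wq P Q q : ℤ)) (mem_univ q)
      exact (Wd_dvd P Q hW q).trans (mul_dvd_mul_right h4 _)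
    rw [Finset.gcd_mul_left] at h3
    exact h3.trans (mul_dvd_mul_right (normalize_dvd_iff.2 dvd_rfl) G)
  rw [mul_comm]
  exact h2.trans (mul_dvd_mul_left L h1)

lemma log_Wd_le {t : Fin 7 → ℤ} (ht : Function.Injective t) (P Q : PrimPt t)
    (hW : Wd P Q ≠ 0) :
    Real.log |(Wd P Q : ℝ)| ≤ Real.log |(2 * dl t ^ 10 : ℝ)| +
      ∑ q : Quad, Real.log (wq P Q q : ℝ) := by
  have hc : (2 * dl t ^ 10 : ℤ) ≠ 0 := mul_ne_zero two_ne_zero (pow_ne_zero _ (dl_ne_zero ht))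
  have hw : ∀ q : Quad, (wq P Q q : ℝ) ≠ 0 := fun q => by
    have : wq P Q q ≠ 0 := Rat.den_nz _
    exact_mod_cast this
  have h1 := Wd_dvd_prod P Q hW
  have hprod : (∏ q : Quad, (wq P Q q : ℤ)) ≠ 0 := by
    rw [prod_ne_zero_iff]
    intro q _
    have : wq P Q q ≠ 0 := Rat.den_nz _
    exact_mod_cast this
  have h2 : |Wd P Q| ≤ |(2 * dl t ^ 10) * ∏ q : Quad, (wq P Q q : ℤ)| := by
    apply Int.le_of_dvd (abs_pos.2 (mul_ne_zero hc hprod))
    exact (abs_dvd_abs _ _).2 h1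
  rw [← Real.log_prod (fun q _ => hw q)]
  have hcr : |(2 * dl t ^ 10 : ℝ)| ≠ 0 := by
    rw [abs_ne_zero]; exact_mod_cast hc
  have hpr : (∏ q : Quad, (wq P Q q : ℝ)) ≠ 0 := by exact_mod_cast hprod
  rw [← Real.log_mul hcr hpr]
  apply Real.log_le_log
  · rw [abs_pos]; exact_mod_cast hW
  · have h3 : ((|Wd P Q| : ℤ) : ℝ) ≤ ((|(2 * dl t ^ 10) * ∏ q : Quad, (wq P Q q : ℤ)| : ℤ) : ℝ) := by
      exact_mod_cast h2
    rw [abs_mul] at h3
    push_cast at h3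
    have h4 : |∏ q : Quad, (wq P Q q : ℝ)| = ∏ q : Quad, (wq P Q q : ℝ) := by
      apply abs_of_nonneg
      exact prod_nonneg fun q _ => by positivity
    rw [h4] at h3
    exact h3

end Pool.Agent.Work.MP_684405_nt
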