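import Mathlib
import Pool.Agent.Work.MP_684405_nt.Gap

/-!
# The points on the elliptic curves attached to seven squares
-/

set_option autoImplicit false

namespace Pool.Agent.Work.MP_684405_nt

open Finset WeierstrassCurve WeierstrassCurve.Affine WeierstrassCurve.Affine.Point Height

/-- first root -/
def ra (t : Fin 7 → ℤ) (q : Fin 4 → Fin 7) : ℤ := -((t (q 1) - t (q 3)) * (t (q 2) - t (q 3)))
/-- second root -/
def rb (t : Fin 7 → ℤ) (q : Fin 4 → Fin 7) : ℤ := -((t (q 0) - t (q 3)) * (t (q 2) - t (q 3)))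
/-- third root -/
def rc (t : Fin 7 → ℤ) (q : Fin 4 → Fin 7) : ℤ := -((t (q 0) - t (q 3)) * (t (q 1) - t (q 3)))
/-- product of the three differences -/
def re (t : Fin 7 → ℤ) (q : Fin 4 → Fin 7) : ℤ :=
  (t (q 0) - t (q 3)) * (t (q 1) - t (q 3)) * (t (q 2) - t (q 3))

variable {t : Fin 7 → ℤ}

lemma sub_ne (ht : Function.Injective t) (q : Quad) {i j : Fin 4} (hij : i ≠ j) :
    t (q.1 i) - t (q.1 j) ≠ 0 :=
  sub_ne_zero.2 fun h => hij (q.2 (ht h))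

lemma ra_ne_rb (ht : Function.Injective t) (q : Quad) : ra t q.1 ≠ rb t q.1 := by
  intro h
  have h1 : (t (q.1 2) - t (q.1 3)) * (t (q.1 0) - t (q.1 1)) = 0 := by
    rw [ra, rb] at h; linarith
  rcases mul_eq_zero.1 h1 with h2 | h2
  · exact sub_ne ht q (by decide) h2
  · exact sub_ne ht q (by decide) h2

lemma rb_ne_rc (ht : Function.Injective t) (q : Quad) : rb t q.1 ≠ rc t q.1 := by
  intro h
  have h1 : (t (q.1 0) - t (q.1 3)) * (t (q.1 1) - t (q.1 2)) = 0 := by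
    rw [rb, rc] at h; linarith
  rcases mul_eq_zero.1 h1 with h2 | h2
  · exact sub_ne ht q (by decide) h2
  · exact sub_ne ht q (by decide) h2

lemma rc_ne_ra (ht : Function.Injective t) (q : Quad) : rc t q.1 ≠ ra t q.1 := by
  intro h
  have h1 : (t (q.1 1) - t (q.1 3)) * (t (q.1 2) - t (q.1 0)) = 0 := by
    rw [rc, ra] at h; linarith
  rcases mul_eq_zero.1 h1 with h2 | h2
  · exact sub_ne ht q (by decide) h2
  · exact sub_ne ht q (by decide) h2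

lemma re_ne_zero (ht : Function.Injective t) (q : Quad) : re t q.1 ≠ 0 :=
  mul_ne_zero (mul_ne_zero (sub_ne ht q (by decide)) (sub_ne ht q (by decide)))
    (sub_ne ht q (by decide))

/-- The elliptic curve attached to a quadruple of indices. -/
abbrev EC (t : Fin 7 → ℤ) (q : Fin 4 → Fin 7) : WeierstrassCurve.Affine ℚ :=
  crv (ra t q : ℚ) (rb t q : ℚ) (rc t q : ℚ)

/-- The `x`-coordinate. -/
def px (P : PrimPt t) (q : Fin 4 → Fin 7) : ℚ := (re t q : ℚ) * P.D / (P.n (q 3) : ℚ) ^ 2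
/-- The `y`-coordinate. -/
def py (P : PrimPt t) (q : Fin 4 → Fin 7) : ℚ :=
  (re t q : ℚ) * (P.n (q 0) * P.n (q 1) * P.n (q 2)) / (P.n (q 3) : ℚ) ^ 3

lemma nq_ne (P : PrimPt t) (i : Fin 7) : (P.n i : ℚ) ≠ 0 := by
  exact_mod_cast (P.npos i).ne'

lemma eqn_diff (P : PrimPt t) (i j : Fin 7) :
    (P.n i : ℚ) ^ 2 = (P.n j : ℚ) ^ 2 + (t i - t j) * P.D := by
  have h1 := P.eqn i
  have h2 := P.eqn j
  have : P.n i ^ 2 = P.n j ^ 2 + (t i - t j) * P.D := by rw [h1, h2]; ring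
  exact_mod_cast this

lemma px_sub_ra (P : PrimPt t) (q : Fin 4 → Fin 7) :
    px P q - ra t q = ((t (q 1) - t (q 3)) * (t (q 2) - t (q 3)) : ℚ) *
      (P.n (q 0) / P.n (q 3)) ^ 2 := by
  have h3 := nq_ne P (q 3)
  rw [px, ra, re]
  push_cast
  rw [div_pow, eqn_diff P (q 0) (q 3)]
  field_simp
  ring

lemma px_sub_rb (P : PrimPt t) (q : Fin 4 → Fin 7) :
    px P q - rb t q = ((t (q 0) - t (q 3)) * (t (q 2) - t (q 3)) : ℚ) *
      (P.n (q 1) / P.n (q 3)) ^ 2 := by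
  have h3 := nq_ne P (q 3)
  rw [px, rb, re]
  push_cast
  rw [div_pow, eqn_diff P (q 1) (q 3)]
  field_simp
  ring

lemma px_sub_rc (P : PrimPt t) (q : Fin 4 → Fin 7) :
    px P q - rc t q = ((t (q 0) - t (q 3)) * (t (q 1) - t (q 3)) : ℚ) *
      (P.n (q 2) / P.n (q 3)) ^ 2 := by
  have h3 := nq_ne P (q 3)
  rw [px, rc, re]
  push_cast
  rw [div_pow, eqn_diff P (q 2) (q 3)]
  field_simp
  ring

lemma pt_eqn (P : PrimPt t) (q : Fin 4 → Fin 7) :
    py P q ^ 2 = (px P q - ra t q) * (px P q - rb t q) * (px P q - rc t q) := by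
  have h3 := nq_ne P (q 3)
  rw [px_sub_ra, px_sub_rb, px_sub_rc, py, re]
  push_cast
  field_simp

lemma pt_nonsingular (ht : Function.Injective t) (P : PrimPt t) (q : Quad) :
    (EC t q.1).Nonsingular (px P q.1) (py P q.1) :=
  crv_nonsingular (by exact_mod_cast ra_ne_rb ht q) (by exact_mod_cast rb_ne_rc ht q)
    (by exact_mod_cast rc_ne_ra ht q) (pt_eqn P q.1)

/-- The point on the elliptic curve. -/
def pt (ht : Function.Injective t) (P : PrimPt t) (q : Quad) : (EC t q.1).Point :=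
  some (px P q.1) (py P q.1) (pt_nonsingular ht P q)

lemma px_sub_px (P Q : PrimPt t) (q : Fin 4 → Fin 7) :
    px P q - px Q q = (re t q : ℚ) * (Wd P Q : ℚ) /
      ((P.n (q 3) : ℚ) ^ 2 * (Q.n (q 3) : ℚ) ^ 2) := by
  have h3 := nq_ne P (q 3)
  have h3' := nq_ne Q (q 3)
  have e1 : (P.n (q 3) : ℚ) ^ 2 = P.x + t (q 3) * P.D := by exact_mod_cast P.eqn (q 3)
  have e2 : (Q.n (q 3) : ℚ) ^ 2 = Q.x + t (q 3) * Q.D := by exact_mod_cast Q.eqn (q 3)
  rw [px, px, Wd]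
  push_cast
  field_simp
  rw [e1, e2]
  ring

lemma px_ne (ht : Function.Injective t) (P Q : PrimPt t) (hW : Wd P Q ≠ 0) (q : Quad) :
    px P q.1 ≠ px Q q.1 := by
  rw [← sub_ne_zero, px_sub_px]
  have h3 := nq_ne P (q.1 3)
  have h3' := nq_ne Q (q.1 3)
  have h1 : (re t q.1 : ℚ) ≠ 0 := by exact_mod_cast re_ne_zero ht q
  have h2 : (Wd P Q : ℚ) ≠ 0 := by exact_mod_cast hW
  positivity

/-- The height of the difference is controlled from below by the denominator `wq`. -/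
lemma hgt_diff_ge (ht : Function.Injective t) (P Q : PrimPt t) (hW : Wd P Q ≠ 0) (q : Quad) :
    2 * Real.log (wq P Q q : ℝ) - (Real.log 2 + logHeight₁ (ra t q.1 : ℚ)) ≤
      hgt (pt ht P q - pt ht Q q) := by
  have hx := px_ne ht P Q hW q
  set x₁ := px P q.1 with hx1
  set x₂ := px Q q.1 with hx2
  set y₁ := py P q.1 with hy1
  set y₂ := py Q q.1 with hy2
  have hsub : pt ht P q - pt ht Q q = pt ht P q + -pt ht Q q := sub_eq_add_neg _ _
  rw [hsub, pt, pt, neg_some, add_of_X_ne hx, hgt_some]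
  have hXeq : (EC t q.1).addX x₁ x₂ ((EC t q.1).slope x₁ x₂ y₁ ((EC t q.1).negY x₂ y₂)) =
      ((y₁ - (-y₂)) / (x₁ - x₂)) ^ 2 + ((ra t q.1 : ℚ) + rb t q.1 + rc t q.1) - x₁ - x₂ := by
    rw [slope_of_X_ne hx]
    simp only [addX, negY, crv]
    ring
  rw [hXeq]
  set X₃ := ((y₁ - (-y₂)) / (x₁ - x₂)) ^ 2 + ((ra t q.1 : ℚ) + rb t q.1 + rc t q.1) - x₁ - x₂
    with hX3
  have e1 := pt_eqn P q.1
  have e2 := pt_eqn Q q.1
  have e2' : (-y₂) ^ 2 = (x₂ - ra t q.1) * (x₂ - rb t q.1) * (x₂ - rc t q.1) := by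
    rw [neg_sq]; exact e2
  have hadd := add_formula_a e1 e2' hx
  rw [← hX3] at hadd
  have hWq : (Wd P Q : ℚ) ≠ 0 := by exact_mod_cast hW
  have n0 := nq_ne P (q.1 0)
  have n3 := nq_ne P (q.1 3)
  have m0 := nq_ne Q (q.1 0)
  have m3 := nq_ne Q (q.1 3)
  have f1 : ((t (q.1 0) - t (q.1 3) : ℤ) : ℚ) ≠ 0 := by exact_mod_cast sub_ne ht q (by decide)
  have f2 : ((t (q.1 1) - t (q.1 3) : ℤ) : ℚ) ≠ 0 := by exact_mod_cast sub_ne ht q (by decide)
  have f3 : ((t (q.1 2) - t (q.1 3) : ℤ) : ℚ) ≠ 0 := by exact_mod_cast sub_ne ht q (by decide)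
  push_cast at f1 f2 f3
  have hkey : X₃ - ra t q.1 = ((Aq P.n Q.n q.1 : ℚ) / (Wd P Q : ℚ)) ^ 2 := by
    have hxd : x₁ - x₂ = _ := px_sub_px P Q q.1
    have hxa : x₁ - (ra t q.1 : ℚ) = _ := px_sub_ra P q.1
    have hxa' : x₂ - (ra t q.1 : ℚ) = _ := px_sub_ra Q q.1
    rw [hxd, hxa, hxa', hy2, py, py, re] at hadd
    push_cast at hadd
    rw [Aq]
    push_cast
    have hne : (((t (q.1 0) - t (q.1 3)) * (t (q.1 1) - t (q.1 3)) * (t (q.1 2) - t (q.1 3)) : ℚ) *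
        (Wd P Q : ℚ) / ((P.n (q.1 3) : ℚ) ^ 2 * (Q.n (q.1 3) : ℚ) ^ 2)) ^ 2 *
      (((t (q.1 1) - t (q.1 3)) * (t (q.1 2) - t (q.1 3)) : ℚ) *
      (P.n (q.1 0) / P.n (q.1 3)) ^ 2 * (((t (q.1 1) - t (q.1 3)) * (t (q.1 2) - t (q.1 3)) : ℚ) *
      (Q.n (q.1 0) / Q.n (q.1 3)) ^ 2)) ≠ 0 := by positivity
    apply mul_right_cancel₀ hne
    rw [hadd]
    field_simp
    ring
  have h1 : logHeight₁ (X₃ - ra t q.1) ≤ Real.log 2 + logHeight₁ X₃ + logHeight₁ (ra t q.1 : ℚ) := by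
    have := logHeight₁_sub_le X₃ (ra t q.1 : ℚ)
    rwa [NumberField.totalWeight_eq_finrank, Module.finrank_self, Nat.cast_one, one_mul] at this
  rw [hkey, logHeight₁_pow] at h1
  have h2 : Real.log (wq P Q q : ℝ) ≤ logHeight₁ ((Aq P.n Q.n q.1 : ℚ) / (Wd P Q : ℚ)) := by
    rw [Rat.logHeight₁_eq_log_max, wq]
    apply Real.log_le_log
    · exact_mod_cast Rat.den_pos _
    · exact_mod_cast le_max_right _ _
  push_cast at h1
  linarith

end Pool.Agent.Work.MP_684405_nt
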