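import Mathlib
import Pool.Agent.Work.MP_684405_nt.Points
import Pool.Agent.Work.MP_684405_nt.Coloring

/-!
# Boundedness of the number of points of comparable height
-/

set_option autoImplicit false

namespace Pool.Agent.Work.MP_684405_nt

open Finset WeierstrassCurve WeierstrassCurve.Affine WeierstrassCurve.Affine.Point Height

variable {t : Fin 7 → ℤ}

/-- A constant bounding all differences. -/
def Tm (t : Fin 7 → ℤ) : ℤ := 1 + ∑ p : Fin 7 × Fin 7, |t p.1 - t p.2|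

lemma Tm_pos (t : Fin 7 → ℤ) : 1 ≤ Tm t := by
  have : 0 ≤ ∑ p : Fin 7 × Fin 7, |t p.1 - t p.2| := sum_nonneg fun _ _ => abs_nonneg _
  rw [Tm]; linarith

lemma abs_sub_le_Tm (t : Fin 7 → ℤ) (i j : Fin 7) : |t i - t j| ≤ Tm t := by
  have h := single_le_sum (f := fun p : Fin 7 × Fin 7 => |t p.1 - t p.2|)
    (fun p _ => abs_nonneg _) (mem_univ (i, j))
  rw [Tm]
  simp only at h
  linarith

/-- Each `n i` is at most `Tm t * D`. -/
lemma n_le (ht : Function.Injective t) (P : PrimPt t) (i : Fin 7) : P.n i ≤ Tm t * P.D := by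
  obtain ⟨j, hj⟩ : ∃ j : Fin 7, j ≠ i := exists_ne i
  have h1 : (P.n j - P.n i) * (P.n j + P.n i) = (t j - t i) * P.D := by
    have e1 := P.eqn i
    have e2 := P.eqn j
    linear_combination e2 - e1
  have hD := P.Dpos
  have hi := P.npos i
  have hj' := P.npos j
  have hne : P.n j - P.n i ≠ 0 := by
    intro h0
    rw [h0, zero_mul] at h1
    rcases mul_eq_zero.1 h1.symm with h2 | h2
    · exact hj (ht (sub_eq_zero.1 h2))
    · exact hD.ne' h2
  have h2 : |P.n j - P.n i| * (P.n j + P.n i) = |t j - t i| * P.D := by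
    have := congrArg abs h1
    rw [abs_mul, abs_mul, abs_of_pos (add_pos hj' hi), abs_of_pos hD] at this
    exact this
  have h3 : 1 ≤ |P.n j - P.n i| := Int.one_le_abs hne
  have h4 := abs_sub_le_Tm t j i
  nlinarith

lemma logHeight₁_div_le {a b : ℤ} (ha : 0 < a) (hb : 0 < b) :
    logHeight₁ ((a : ℚ) / b) ≤ Real.log (max a b : ℤ) := by
  rw [Rat.logHeight₁_eq_log_max]
  apply Real.log_le_log
  · have : 0 < ((a : ℚ) / b).den := Rat.den_pos _
    exact_mod_cast lt_of_lt_of_le this (le_max_right _ _)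
  · have h1 : (((a : ℚ) / b).num.natAbs : ℤ) ≤ a := by
      have hnum : ((a : ℚ) / b).num ∣ a := by
        have := Rat.num_dvd a hb.ne'
        rwa [← Rat.intCast_div_eq_divInt] at this
      have h2 := Int.le_of_dvd ha hnum
      have h3 : 0 ≤ ((a : ℚ) / b).num := by
        rw [Rat.num_nonneg]
        positivity
      rw [Int.natAbs_of_nonneg h3]
      exact h2
    have h2 : (((a : ℚ) / b).den : ℤ) ≤ b := by
      have hden : (((a : ℚ) / b).den : ℤ) ∣ b := by
        have := Rat.den_dvd a b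
        rwa [← Rat.intCast_div_eq_divInt] at this
      exact Int.le_of_dvd hb hden
    have h3 : ((max ((a : ℚ) / b).num.natAbs ((a : ℚ) / b).den : ℕ) : ℤ) ≤ max a b := by
      rw [Nat.cast_max]
      exact max_le_max h1 h2
    have h4 := (Int.cast_le (R := ℝ)).2 h3
    rwa [Int.cast_natCast] at h4

/-- The constant. -/
noncomputable def Ct (t : Fin 7 → ℤ) : ℝ :=
  2 * Real.log (Tm t : ℝ) + ∑ q : Quad, logHeight₁ (re t q.1 : ℚ) +
    2 * abs (Real.log |(2 * dl t ^ 10 : ℝ)|) + ∑ q : Quad, (Real.log 2 + logHeight₁ (ra t q.1 : ℚ))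

lemma Ct_nonneg (t : Fin 7 → ℤ) : 0 ≤ Ct t := by
  have h1 : 0 ≤ Real.log (Tm t : ℝ) := Real.log_nonneg (by exact_mod_cast Tm_pos t)
  have h2 : 0 ≤ ∑ q : Quad, logHeight₁ (re t q.1 : ℚ) := sum_nonneg fun q _ => zero_le_logHeight₁ _
  have h3 : 0 ≤ ∑ q : Quad, (Real.log 2 + logHeight₁ (ra t q.1 : ℚ)) :=
    sum_nonneg fun q _ => add_nonneg (Real.log_nonneg (by norm_num)) (zero_le_logHeight₁ _)
  have h4 := abs_nonneg (Real.log |(2 * dl t ^ 10 : ℝ)|)
  rw [Ct]; linarith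

/-- Upper bound for the heights. -/
lemma hgt_pt_le (ht : Function.Injective t) (P : PrimPt t) (q : Quad) :
    hgt (pt ht P q) ≤ 2 * Real.log (P.D : ℝ) + Ct t := by
  rw [pt, hgt_some, px]
  have hD := P.Dpos
  have hn := P.npos (q.1 3)
  have e : (re t q.1 : ℚ) * P.D / (P.n (q.1 3) : ℚ) ^ 2 =
      (re t q.1 : ℚ) * (((P.D : ℤ) : ℚ) / ((P.n (q.1 3) ^ 2 : ℤ) : ℚ)) := by
    push_cast; ring
  rw [e]
  have h1 := logHeight₁_mul_le (re t q.1 : ℚ) (((P.D : ℤ) : ℚ) / ((P.n (q.1 3) ^ 2 : ℤ) : ℚ))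
  have h2 := logHeight₁_div_le hD (pow_pos hn 2)
  have h3 : Real.log ((max P.D (P.n (q.1 3) ^ 2) : ℤ) : ℝ) ≤
      2 * Real.log (P.D : ℝ) + 2 * Real.log (Tm t : ℝ) := by
    have hDr : (0 : ℝ) < P.D := by exact_mod_cast hD
    have hTr : (0 : ℝ) < Tm t := by exact_mod_cast lt_of_lt_of_le one_pos (Tm_pos t)
    have h4 : 2 * Real.log (P.D : ℝ) + 2 * Real.log (Tm t : ℝ) =
        Real.log (((Tm t * P.D) ^ 2 : ℤ) : ℝ) := by
      push_cast
      rw [Real.log_pow, Real.log_mul hTr.ne' hDr.ne']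
      push_cast; ring
    rw [h4]
    apply Real.log_le_log
    · have : 0 < max P.D (P.n (q.1 3) ^ 2) := lt_of_lt_of_le hD (le_max_left _ _)
      exact_mod_cast this
    · have h5 := n_le ht P (q.1 3)
      have h6 := Tm_pos t
      have h7 : max P.D (P.n (q.1 3) ^ 2) ≤ (Tm t * P.D) ^ 2 := by
        apply max_le
        · nlinarith [mul_pos (lt_of_lt_of_le one_pos h6) hD]
        · nlinarith
      exact_mod_cast h7
  have h5 : logHeight₁ (re t q.1 : ℚ) ≤ ∑ q : Quad, logHeight₁ (re t q.1 : ℚ) :=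
    single_le_sum (f := fun q : Quad => logHeight₁ (re t q.1 : ℚ))
      (fun q _ => zero_le_logHeight₁ _) (mem_univ q)
  have h6 : 0 ≤ ∑ q : Quad, (Real.log 2 + logHeight₁ (ra t q.1 : ℚ)) :=
    sum_nonneg fun q _ => add_nonneg (Real.log_nonneg (by norm_num)) (zero_le_logHeight₁ _)
  have h7 := abs_nonneg (Real.log |(2 * dl t ^ 10 : ℝ)|)
  rw [Ct]
  linarith

/-- **Gap principle**. -/
lemma gap (ht : Function.Injective t) (P Q : PrimPt t) (hW : Wd P Q ≠ 0) :
    2 * Real.log |(Wd P Q : ℝ)| - Ct t ≤ ∑ q : Quad, hgt (pt ht P q - pt ht Q q) := by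
  have h1 := log_Wd_le ht P Q hW
  have h2 : ∑ q : Quad, (2 * Real.log (wq P Q q : ℝ) - (Real.log 2 + logHeight₁ (ra t q.1 : ℚ))) ≤
      ∑ q : Quad, hgt (pt ht P q - pt ht Q q) := sum_le_sum fun q _ => hgt_diff_ge ht P Q hW q
  rw [sum_sub_distrib, ← mul_sum] at h2
  have h3 : 0 ≤ Real.log (Tm t : ℝ) := Real.log_nonneg (by exact_mod_cast Tm_pos t)
  have h4 : 0 ≤ ∑ q : Quad, logHeight₁ (re t q.1 : ℚ) := sum_nonneg fun q _ => zero_le_logHeight₁ _
  have h5 := le_abs_self (Real.log |(2 * dl t ^ 10 : ℝ)|)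
  rw [Ct]
  linarith

/-- The number of points of comparable height with large mutual determinants is bounded. -/
theorem prim_bound (ht : Function.Injective t) :
    ∃ M : ℕ, ∀ κ : ℝ, ∃ T₀ : ℝ, ∀ τ : ℝ, T₀ ≤ τ → ∀ (ι : Type) [Fintype ι] (P : ι → PrimPt t),
      (∀ w, τ ≤ Real.log ((P w).D : ℝ) ∧ Real.log ((P w).D : ℝ) ≤ 4 * τ) →
      (∀ w w', w ≠ w' → Wd (P w) (P w') ≠ 0 ∧
        Real.log ((P w).D : ℝ) + Real.log ((P w').D : ℝ) - κ ≤
          Real.log |(Wd (P w) (P w') : ℝ)|) → Fintype.card ι ≤ M := by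
  classical
  have hC0 := Ct_nonneg t
  -- colourings for each quadruple
  have hcol : ∀ q : Quad, ∃ F : Finset (EC t q.1).Point, ∀ τ : ℝ, 1 ≤ τ →
      ∃ c : (EC t q.1).Point → (EC t q.1).Point,
        (∀ x, hgt x ≤ (8 + Ct t) * τ → c x ∈ F) ∧
        ∀ x y, hgt x ≤ (8 + Ct t) * τ → hgt y ≤ (8 + Ct t) * τ → c x = c y →
          hgt (x - y) ≤ (1 / (Fintype.card Quad + 1 : ℝ)) * τ := by
    intro q
    have hab := ra_ne_rb ht q
    have hbc := rb_ne_rc ht q
    have hca := rc_ne_ra ht q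
    have hell : (EC t q.1).IsElliptic :=
      crv_elliptic (by exact_mod_cast hab) (by exact_mod_cast hbc) (by exact_mod_cast hca)
    obtain ⟨C, hC⟩ := hgt_parallelogram (W := EC t q.1) rfl rfl hell
    obtain ⟨S, hS, hcov⟩ := crv_cover (ra t q.1) (rb t q.1) (rc t q.1) hab hbc hca
    exact coloring (h := hgt) hgt_nonneg hgt_zero hC (hgt_finite _) hS hcov (8 + Ct t)
      (1 / (Fintype.card Quad + 1 : ℝ)) (by linarith) (by positivity)
  choose F hF using hcol
  refine ⟨(Fintype.piFinset F).card, fun κ => ⟨max 1 ((2 * κ + Ct t) / 3 + 1), ?_⟩⟩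
  intro τ hτ ι _ P hP hPW
  have hτ1 : 1 ≤ τ := (le_max_left _ _).trans hτ
  have hτ2 : (2 * κ + Ct t) / 3 + 1 ≤ τ := (le_max_right _ _).trans hτ
  by_contra hcon
  push Not at hcon
  choose c hc1 hc2 using fun q => hF q τ hτ1
  have hhgt : ∀ w q, hgt (pt ht (P w) q) ≤ (8 + Ct t) * τ := by
    intro w q
    have h1 := hgt_pt_le ht (P w) q
    have h2 := (hP w).2
    nlinarith
  obtain ⟨w, -, w', -, hne, heq⟩ := exists_ne_map_eq_of_card_lt_of_maps_to
    (s := (univ : Finset ι)) (t := Fintype.piFinset F)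
    (f := fun w => fun q => c q (pt ht (P w) q)) (by rw [card_univ]; exact hcon)
    (fun w _ => by
      simp only [Finset.mem_coe, Fintype.mem_piFinset]
      exact fun q => hc1 q _ (hhgt w q))
  have hdiff : ∀ q : Quad, hgt (pt ht (P w) q - pt ht (P w') q) ≤
      (1 / (Fintype.card Quad + 1 : ℝ)) * τ := fun q =>
    hc2 q _ _ (hhgt w q) (hhgt w' q) (congrFun heq q)
  have hsum : ∑ q : Quad, hgt (pt ht (P w) q - pt ht (P w') q) ≤ τ := by
    calc ∑ q : Quad, hgt (pt ht (P w) q - pt ht (P w') q)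
        ≤ ∑ _q : Quad, (1 / (Fintype.card Quad + 1 : ℝ)) * τ := sum_le_sum fun q _ => hdiff q
      _ = (Fintype.card Quad : ℝ) * ((1 / (Fintype.card Quad + 1 : ℝ)) * τ) := by
          rw [sum_const, card_univ, nsmul_eq_mul]
      _ ≤ τ := by
          have hcardpos : (0 : ℝ) < Fintype.card Quad + 1 := by positivity
          have : (Fintype.card Quad : ℝ) * ((1 / (Fintype.card Quad + 1 : ℝ)) * τ) =
              τ * ((Fintype.card Quad : ℝ) / (Fintype.card Quad + 1 : ℝ)) := by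
            field_simp
          rw [this]
          have h1 : (Fintype.card Quad : ℝ) / (Fintype.card Quad + 1 : ℝ) ≤ 1 := by
            rw [div_le_one hcardpos]; linarith
          nlinarith
  obtain ⟨hW, hlog⟩ := hPW w w' hne
  have hgap := gap ht (P w) (P w') hW
  have h1 := (hP w).1
  have h2 := (hP w').1
  linarith

end Pool.Agent.Work.MP_684405_nt
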