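import Mathlib
import Pool.Agent.Work.MP_684405_nt.Bound

/-!
# Bounding the number of windows of a given type
-/

set_option autoImplicit false

namespace Pool.Agent.Work.MP_684405_nt

open Finset

/-- The integer version of the pattern. -/
abbrev tz (t : Fin 7 → ℕ) : Fin 7 → ℤ := fun i => (t i : ℤ)

/-- Normalisation of seven squares in a progression. -/
lemma mk_prim (t : Fin 7 → ℕ) (ht0 : t 0 = 0) (hgcd : (univ : Finset (Fin 7)).gcd t = 1)
    {x D : ℕ} (hx : 0 < x) (hD : 0 < D) (h : ∀ i, IsSquare (x + t i * D)) :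
    ∃ (P : PrimPt (tz t)) (g : ℤ), 0 < g ∧ (x : ℤ) = g ^ 2 * P.x ∧ (D : ℤ) = g ^ 2 * P.D := by
  classical
  choose N hN using h
  have hNpos : ∀ i, 0 < N i := by
    intro i
    rcases Nat.eq_zero_or_pos (N i) with h0 | h0
    · have := hN i
      rw [h0] at this
      omega
    · exact h0
  set g : ℕ := (univ : Finset (Fin 7)).gcd N with hg
  have hgN : ∀ i, g ∣ N i := fun i => gcd_dvd (mem_univ i)
  have hgpos : 0 < g := by
    rcases Nat.eq_zero_or_pos g with h0 | h0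
    · have h1 := hgN 0
      rw [h0] at h1
      have := hNpos 0
      rw [Nat.eq_zero_of_zero_dvd h1] at this
      omega
    · exact h0
  have hg2 : ∀ i, g ^ 2 ∣ x + t i * D := by
    intro i
    rw [hN i, ← sq]
    exact pow_dvd_pow_of_dvd (hgN i) 2
  have hgx : g ^ 2 ∣ x := by
    have := hg2 0
    rwa [ht0, zero_mul, add_zero] at this
  have hgD : g ^ 2 ∣ D := by
    have h1 : g ^ 2 ∣ (univ : Finset (Fin 7)).gcd (fun i => t i * D) := by
      apply Finset.dvd_gcd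
      intro i _
      exact (Nat.dvd_add_right hgx).1 (hg2 i)
    rw [Finset.gcd_mul_right, hgcd] at h1
    simpa using h1
  obtain ⟨x', hx'⟩ := hgx
  obtain ⟨D', hD'⟩ := hgD
  choose N' hN' using hgN
  have hN'pos : ∀ i, 0 < N' i := by
    intro i
    rcases Nat.eq_zero_or_pos (N' i) with h0 | h0
    · have h1 := hNpos i
      rw [hN' i, h0, mul_zero] at h1
      omega
    · exact h0
  have hD'pos : 0 < D' := by
    rcases Nat.eq_zero_or_pos D' with h0 | h0
    · rw [h0, mul_zero] at hD'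
      omega
    · exact h0
  have heq : ∀ i, N' i ^ 2 = x' + t i * D' := by
    intro i
    have h1 : g ^ 2 * N' i ^ 2 = g ^ 2 * (x' + t i * D') := by
      calc g ^ 2 * N' i ^ 2 = N i * N i := by rw [hN' i]; ring
        _ = x + t i * D := (hN i).symm
        _ = g ^ 2 * (x' + t i * D') := by
          conv_lhs => rw [hx', hD']
          ring
    exact Nat.eq_of_mul_eq_mul_left (by positivity) h1
  have hgcd' : (univ : Finset (Fin 7)).gcd N' = 1 := by
    have h1 : g = g * (univ : Finset (Fin 7)).gcd N' := by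
      have h2 : (univ : Finset (Fin 7)).gcd N = (univ : Finset (Fin 7)).gcd (fun i => g * N' i) :=
        Finset.gcd_congr rfl fun i _ => hN' i
      rw [Finset.gcd_mul_left] at h2
      simpa using h2
    have h3 : g * (univ : Finset (Fin 7)).gcd N' = g * 1 := by rw [← h1, mul_one]
    exact Nat.eq_of_mul_eq_mul_left hgpos h3
  have hcop : Nat.Coprime x' D' := by
    rw [Nat.coprime_iff_gcd_eq_one]
    by_contra hne
    obtain ⟨p, hp, hpd⟩ := Nat.exists_prime_and_dvd hne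
    have hpx : p ∣ x' := hpd.trans (Nat.gcd_dvd_left _ _)
    have hpD : p ∣ D' := hpd.trans (Nat.gcd_dvd_right _ _)
    have h1 : p ∣ (univ : Finset (Fin 7)).gcd N' := by
      apply Finset.dvd_gcd
      intro i _
      apply hp.dvd_of_dvd_pow (n := 2)
      rw [heq i]
      exact dvd_add hpx (hpD.mul_left _)
    rw [hgcd'] at h1
    exact hp.one_lt.ne' (Nat.dvd_one.1 h1)
  refine ⟨⟨fun i => (N' i : ℤ), (D' : ℤ), (x' : ℤ), fun i => by exact_mod_cast hN'pos i,
    by exact_mod_cast hD'pos, fun i => ?_, Nat.isCoprime_iff_coprime.2 hcop⟩, (g : ℤ),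
    by exact_mod_cast hgpos, ?_, ?_⟩
  · have := heq i
    simp only [tz]
    exact_mod_cast this
  · simp only
    exact_mod_cast hx'
  · simp only
    exact_mod_cast hD'

/-- Two normalised points on the same line have comparable `D`. -/
lemma same_line {t : Fin 7 → ℤ} (P Q : PrimPt t) {x x' D g g' α J : ℤ} (hD : 0 < D)
    (hα : 0 < α) (hx : x = g ^ 2 * P.x) (hx' : x' = g' ^ 2 * Q.x) (hDP : D = g ^ 2 * P.D)
    (hDQ : D = g' ^ 2 * Q.D) (he : α * (x - x') - J * D = 0) : P.D ≤ α * Q.D := by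
  have h1 : D * (α * (P.x * Q.D - Q.x * P.D)) = D * (J * (P.D * Q.D)) := by
    have e1 : x * P.D = P.x * D := by rw [hx, hDP]; ring
    have e2 : x' * Q.D = Q.x * D := by rw [hx', hDQ]; ring
    have e3 : α * (x * P.D * Q.D - x' * Q.D * P.D) = J * D * (P.D * Q.D) := by
      linear_combination (P.D * Q.D) * he
    rw [e1, e2] at e3
    linear_combination e3
  have h2 := mul_left_cancel₀ hD.ne' h1
  have h3 : P.D ∣ P.x * (α * Q.D) := by
    refine ⟨J * Q.D + α * Q.x, ?_⟩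
    linear_combination h2
  have h4 : P.D ∣ α * Q.D := P.cop.symm.dvd_of_dvd_mul_left h3
  exact Int.le_of_dvd (mul_pos hα Q.Dpos) h4

/-- Two normalised points on different lines cannot both have small `D`. -/
lemma diff_line {t : Fin 7 → ℤ} (P Q : PrimPt t) {x x' D g g' α J B : ℤ} (hD : 0 < D)
    (hg : 0 < g) (hg' : 0 < g')
    (hx : x = g ^ 2 * P.x) (hx' : x' = g' ^ 2 * Q.x) (hDP : D = g ^ 2 * P.D)
    (hDQ : D = g' ^ 2 * Q.D) (he : α * (x - x') - J * D ≠ 0)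
    (hB : |α * (x - x') - J * D| ≤ B) : D ≤ P.D * Q.D * B := by
  set a : ℕ := (g ^ 2).natAbs with ha
  set b : ℕ := (g' ^ 2).natAbs with hb
  have haz : (a : ℤ) = g ^ 2 := by rw [ha, Int.natAbs_of_nonneg (by positivity)]
  have hbz : (b : ℤ) = g' ^ 2 := by rw [hb, Int.natAbs_of_nonneg (by positivity)]
  have hgcd_dvd : ((Nat.gcd a b : ℕ) : ℤ) ∣ α * (x - x') - J * D := by
    have h1 : ((Nat.gcd a b : ℕ) : ℤ) ∣ g ^ 2 := by
      rw [← haz]; exact_mod_cast Nat.gcd_dvd_left a b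
    have h2 : ((Nat.gcd a b : ℕ) : ℤ) ∣ g' ^ 2 := by
      rw [← hbz]; exact_mod_cast Nat.gcd_dvd_right a b
    have h3 : ((Nat.gcd a b : ℕ) : ℤ) ∣ x := by rw [hx]; exact h1.mul_right _
    have h4 : ((Nat.gcd a b : ℕ) : ℤ) ∣ x' := by rw [hx']; exact h2.mul_right _
    have h5 : ((Nat.gcd a b : ℕ) : ℤ) ∣ D := by rw [hDP]; exact h1.mul_right _
    exact ((h3.sub h4).mul_left _).sub (h5.mul_left _)
  have hgcd_le : ((Nat.gcd a b : ℕ) : ℤ) ≤ B :=
    (Int.le_of_dvd (abs_pos.2 he) ((dvd_abs _ _).2 hgcd_dvd)).trans hB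
  have hlcm : ((Nat.lcm a b : ℕ) : ℤ) ≤ D := by
    apply Int.le_of_dvd hD
    have h1 : (a : ℤ) ∣ D := by rw [haz, hDP]; exact dvd_mul_right _ _
    have h2 : (b : ℤ) ∣ D := by rw [hbz, hDQ]; exact dvd_mul_right _ _
    have hDn : ((D.natAbs : ℕ) : ℤ) = D := Int.natAbs_of_nonneg hD.le
    rw [← hDn] at h1 h2 ⊢
    have h1' : a ∣ D.natAbs := by exact_mod_cast h1
    have h2' : b ∣ D.natAbs := by exact_mod_cast h2
    exact_mod_cast Nat.lcm_dvd h1' h2'
  have hprod : g ^ 2 * g' ^ 2 = ((Nat.gcd a b : ℕ) : ℤ) * ((Nat.lcm a b : ℕ) : ℤ) := by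
    rw [← haz, ← hbz]
    exact_mod_cast (Nat.gcd_mul_lcm a b).symm
  have h6 : g ^ 2 * g' ^ 2 ≤ B * D := by
    rw [hprod]
    apply mul_le_mul hgcd_le hlcm (by positivity)
    exact le_trans (by positivity) hgcd_le
  have h7 : D * D = (P.D * Q.D) * (g ^ 2 * g' ^ 2) := by
    calc D * D = (g ^ 2 * P.D) * (g' ^ 2 * Q.D) := by rw [← hDP, ← hDQ]
      _ = (P.D * Q.D) * (g ^ 2 * g' ^ 2) := by ring
  have hPQ : 0 < P.D * Q.D := mul_pos P.Dpos Q.Dpos
  have h8 : D * D ≤ D * (P.D * Q.D * B) := by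
    rw [h7]
    calc (P.D * Q.D) * (g ^ 2 * g' ^ 2) ≤ (P.D * Q.D) * (B * D) :=
          mul_le_mul_of_nonneg_left h6 hPQ.le
      _ = D * (P.D * Q.D * B) := by ring
  exact le_of_mul_le_mul_left h8 hD

/-- The determinant is large. -/
lemma det_large {t : Fin 7 → ℤ} (P Q : PrimPt t) {x x' D g g' κ d : ℤ} (hD : 0 < D)
    (hd : 0 < d) (hκ : 0 < κ) (hg : 0 < g) (hg' : 0 < g')
    (hx : x = g ^ 2 * P.x) (hx' : x' = g' ^ 2 * Q.x) (hDP : D = g ^ 2 * P.D)
    (hDQ : D = g' ^ 2 * Q.D) (hDκ : D ≤ κ * d) (hsep : d ≤ |x' - x|) :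
    Wd P Q ≠ 0 ∧ P.D * Q.D ≤ κ * |Wd P Q| := by
  have h1 : g ^ 2 * g' ^ 2 * Wd P Q = D * (x' - x) := by
    rw [Wd]
    calc g ^ 2 * g' ^ 2 * (P.D * Q.x - Q.D * P.x)
        = (g ^ 2 * P.D) * (g' ^ 2 * Q.x) - (g' ^ 2 * Q.D) * (g ^ 2 * P.x) := by ring
      _ = D * (x' - x) := by rw [← hDP, ← hDQ, ← hx, ← hx']; ring
  have hgg : 0 < g ^ 2 * g' ^ 2 := by positivity
  have h2 : g ^ 2 * g' ^ 2 * |Wd P Q| = D * |x' - x| := by
    have := congrArg abs h1
    rwa [abs_mul (g ^ 2 * g' ^ 2) (Wd P Q), abs_mul D, abs_of_pos hgg, abs_of_pos hD] at this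
  have h3 : 0 < |x' - x| := lt_of_lt_of_le hd hsep
  constructor
  · intro h0
    rw [h0, abs_zero, mul_zero] at h2
    have : 0 < D * |x' - x| := mul_pos hD h3
    linarith
  · have h4 : (g ^ 2 * g' ^ 2) * (P.D * Q.D) ≤ (g ^ 2 * g' ^ 2) * (κ * |Wd P Q|) := by
      calc (g ^ 2 * g' ^ 2) * (P.D * Q.D) = (g ^ 2 * P.D) * (g' ^ 2 * Q.D) := by ring
        _ = D * D := by rw [← hDP, ← hDQ]
        _ ≤ D * (κ * d) := mul_le_mul_of_nonneg_left hDκ hD.le
        _ ≤ D * (κ * |x' - x|) :=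
            mul_le_mul_of_nonneg_left (mul_le_mul_of_nonneg_left hsep hκ.le) hD.le
        _ = κ * (D * |x' - x|) := by ring
        _ = (g ^ 2 * g' ^ 2) * (κ * |Wd P Q|) := by rw [← h2]; ring
    exact le_of_mul_le_mul_left h4 hgg

/-- `D` is large when `x / D` is large. -/
lemma D_large {t : Fin 7 → ℤ} (ht : Function.Injective t) (ht0 : t 0 = 0) (P : PrimPt t)
    {x D g κ d I : ℤ} (hκ : 0 < κ) (hI : 0 < I)
    (hg : 0 < g) (hx : x = g ^ 2 * P.x) (hDP : D = g ^ 2 * P.D) (hDκ : D ≤ κ * d)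
    (hxI : I * d ≤ x) : I ≤ κ * Tm t ^ 2 * P.D := by
  have h1 := n_le ht P 0
  have h2 := P.eqn 0
  rw [ht0, zero_mul, add_zero] at h2
  have h3 := P.npos 0
  have hD := P.Dpos
  have h4 : P.x ≤ (Tm t * P.D) ^ 2 := by
    rw [← h2]
    exact pow_le_pow_left₀ h3.le h1 2
  have h5 : I * D ≤ κ * x := by
    calc I * D ≤ I * (κ * d) := mul_le_mul_of_nonneg_left hDκ hI.le
      _ = κ * (I * d) := by ring
      _ ≤ κ * x := mul_le_mul_of_nonneg_left hxI hκ.le
  have h6 : g ^ 2 * (I * P.D) ≤ g ^ 2 * (κ * P.x) := by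
    calc g ^ 2 * (I * P.D) = I * D := by rw [hDP]; ring
      _ ≤ κ * x := h5
      _ = g ^ 2 * (κ * P.x) := by rw [hx]; ring
  have h7 := le_of_mul_le_mul_left h6 (by positivity)
  have h8 : I * P.D ≤ (κ * Tm t ^ 2 * P.D) * P.D := by
    calc I * P.D ≤ κ * P.x := h7
      _ ≤ κ * (Tm t * P.D) ^ 2 := mul_le_mul_of_nonneg_left h4 hκ.le
      _ = (κ * Tm t ^ 2 * P.D) * P.D := by ring
  exact le_of_mul_le_mul_right h8 hD

/-- **Bound for the number of windows of a given type.** -/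
theorem type_bound (t : Fin 7 → ℕ) (ht0 : t 0 = 0) (hinj : Function.Injective t)
    (hgcd : (univ : Finset (Fin 7)).gcd t = 1) (κ α : ℕ) (hκ : 1 ≤ κ) (hα : 1 ≤ α) :
    ∃ M : ℕ, ∀ B : ℕ, ∃ I₀ : ℕ, ∀ (d D : ℕ), 0 < d → d ≤ D → D ≤ κ * d →
      ∀ (n : ℕ) (x : Fin n → ℕ), (∀ w, I₀ * d ≤ x w) →
        (∀ w w', w ≠ w' → (d : ℤ) ≤ |(x w : ℤ) - x w'|) →
        (∀ w w', ∃ J : ℤ, |(α : ℤ) * ((x w : ℤ) - x w') - J * D| ≤ B) →
        (∀ w i, IsSquare (x w + t i * D)) → n ≤ M := by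
  classical
  have ht : Function.Injective (tz t) := fun i j h => hinj (by exact_mod_cast h)
  obtain ⟨M, hM⟩ := prim_bound ht
  refine ⟨2 * M, fun B => ?_⟩
  obtain ⟨T₀, hT₀⟩ := hM (Real.log κ)
  have hTm := Tm_pos (tz t)
  set L : ℝ := 2 * |T₀| + Real.log α + 2 * Real.log (B + 1) with hL
  obtain ⟨R₀, hR₀1, hR₀⟩ : ∃ R₀ : ℕ, 1 ≤ R₀ ∧ L ≤ Real.log R₀ := by
    refine ⟨⌈Real.exp L⌉₊, ?_, ?_⟩
    · exact Nat.one_le_iff_ne_zero.2 (Nat.pos_of_ne_zero (by
        have := Nat.ceil_pos.2 (Real.exp_pos L)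
        omega)).ne'
    · rw [Real.le_log_iff_exp_le]
      · exact Nat.le_ceil _
      · exact_mod_cast Nat.ceil_pos.2 (Real.exp_pos L)
  have hαr : (1 : ℝ) ≤ α := by exact_mod_cast hα
  have hlogα : 0 ≤ Real.log α := Real.log_nonneg hαr
  have hB1 : (1 : ℝ) ≤ (B : ℝ) + 1 := by
    have : (0 : ℝ) ≤ B := Nat.cast_nonneg B
    linarith
  have hlogB : 0 ≤ Real.log ((B : ℝ) + 1) := Real.log_nonneg hB1
  refine ⟨R₀ * κ * (Tm (tz t)).toNat ^ 2, ?_⟩
  intro d D hd hdD hDκ n x hx hsep hJ hsq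
  set I₀ : ℕ := R₀ * κ * (Tm (tz t)).toNat ^ 2 with hI₀
  have hTmn : (((Tm (tz t)).toNat : ℕ) : ℤ) = Tm (tz t) := Int.toNat_of_nonneg (by linarith)
  have hTmn1 : 1 ≤ (Tm (tz t)).toNat := by
    have : (1 : ℤ) ≤ (((Tm (tz t)).toNat : ℕ) : ℤ) := by rw [hTmn]; exact hTm
    exact_mod_cast this
  have hI₀pos : 0 < I₀ := by rw [hI₀]; positivity
  have hD : 0 < D := lt_of_lt_of_le hd hdD
  have hDz : (0 : ℤ) < D := by exact_mod_cast hD
  have hdz : (0 : ℤ) < d := by exact_mod_cast hd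
  have hκz : (0 : ℤ) < κ := by exact_mod_cast hκ
  have hαz : (0 : ℤ) < α := by exact_mod_cast hα
  have hDκz : (D : ℤ) ≤ κ * d := by exact_mod_cast hDκ
  have hxpos : ∀ w, 0 < x w := fun w => lt_of_lt_of_le (Nat.mul_pos hI₀pos hd) (hx w)
  choose P g hg hxg hDg using fun w => mk_prim t ht0 hgcd (hxpos w) hD (hsq w)
  have hDpos : ∀ w, (0 : ℤ) < (P w).D := fun w => (P w).Dpos
  have hDposr : ∀ w, (0 : ℝ) < ((P w).D : ℝ) := fun w => by exact_mod_cast hDpos w
  -- lower bound for `D`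
  have hDR : ∀ w, (R₀ : ℤ) ≤ (P w).D := by
    intro w
    have h1 := D_large ht (by simp [tz, ht0]) (P w) (x := x w) (D := D) (g := g w) (κ := κ)
      (d := d) (I := I₀) hκz (by exact_mod_cast hI₀pos) (hg w) (hxg w) (hDg w) hDκz
      (by exact_mod_cast hx w)
    have h2 : ((I₀ : ℕ) : ℤ) = R₀ * (κ * Tm (tz t) ^ 2) := by
      rw [hI₀]; push_cast; rw [hTmn]; ring
    rw [h2] at h1
    have h3 : (0 : ℤ) < κ * Tm (tz t) ^ 2 := by
      have : (0 : ℤ) < Tm (tz t) := by linarith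
      positivity
    have h4 : (κ * Tm (tz t) ^ 2) * (R₀ : ℤ) ≤ (κ * Tm (tz t) ^ 2) * (P w).D := by linarith
    exact le_of_mul_le_mul_left h4 h3
  have hlogD : ∀ w, L ≤ Real.log ((P w).D : ℝ) := by
    intro w
    refine hR₀.trans (Real.log_le_log (by exact_mod_cast hR₀1) ?_)
    have := hDR w
    exact_mod_cast this
  have hDle : ∀ w, (P w).D ≤ (D : ℤ) := by
    intro w
    apply Int.le_of_dvd hDz
    rw [hDg w]
    exact dvd_mul_left _ _
  -- determinants
  have hW : ∀ w w', w ≠ w' → Wd (P w) (P w') ≠ 0 ∧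
        Real.log ((P w).D : ℝ) + Real.log ((P w').D : ℝ) - Real.log κ ≤
          Real.log |(Wd (P w) (P w') : ℝ)| := by
    intro w w' hne
    obtain ⟨h1, h2⟩ := det_large (P w) (P w') (x := x w) (x' := x w') (D := D) (g := g w)
      (g' := g w') (κ := κ) (d := d) hDz hdz hκz (hg w) (hg w') (hxg w) (hxg w') (hDg w) (hDg w')
      hDκz (by rw [abs_sub_comm]; exact hsep w w' hne)
    refine ⟨h1, ?_⟩
    have hκr : (0 : ℝ) < κ := by exact_mod_cast hκ
    have hWr : (0 : ℝ) < |(Wd (P w) (P w') : ℝ)| := by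
      rw [abs_pos]; exact_mod_cast h1
    have h3 : ((P w).D : ℝ) * ((P w').D : ℝ) ≤ κ * |(Wd (P w) (P w') : ℝ)| := by
      exact_mod_cast h2
    have h4 := Real.log_le_log (mul_pos (hDposr w) (hDposr w')) h3
    rw [Real.log_mul (hDposr w).ne' (hDposr w').ne', Real.log_mul hκr.ne' hWr.ne'] at h4
    linarith
  rcases Nat.eq_zero_or_pos n with hn0 | hn0
  · omega
  obtain ⟨w₀, -, hw₀⟩ := exists_min_image (univ : Finset (Fin n)) (fun w => (P w).D)
    ⟨⟨0, hn0⟩, mem_univ _⟩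
  -- two classes
  set S₁ : Finset (Fin n) := univ.filter (fun w => (P w).D ≤ α * (P w₀).D) with hS₁
  set S₂ : Finset (Fin n) := univ.filter (fun w => (D : ℤ) ≤ (P w).D ^ 2 * (B + 1)) with hS₂
  have hcover : (univ : Finset (Fin n)) ⊆ S₁ ∪ S₂ := by
    intro w _
    rw [mem_union, hS₁, hS₂, mem_filter, mem_filter]
    obtain ⟨J, hJw⟩ := hJ w w₀
    by_cases he : (α : ℤ) * ((x w : ℤ) - x w₀) - J * D = 0
    · left
      exact ⟨mem_univ _, same_line (P w) (P w₀) hDz hαz (hxg w) (hxg w₀) (hDg w) (hDg w₀) he⟩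
    · right
      refine ⟨mem_univ _, ?_⟩
      have h1 := diff_line (P w) (P w₀) hDz (hg w) (hg w₀) (hxg w) (hxg w₀) (hDg w) (hDg w₀)
        he hJw
      have h2 := hw₀ w (mem_univ _)
      have h3 : (P w).D * (P w₀).D ≤ (P w).D ^ 2 := by
        rw [sq]; exact mul_le_mul_of_nonneg_left h2 (hDpos w).le
      have hBz : (0 : ℤ) ≤ B := by positivity
      calc (D : ℤ) ≤ (P w).D * (P w₀).D * B := h1
        _ ≤ (P w).D ^ 2 * B := mul_le_mul_of_nonneg_right h3 hBz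
        _ ≤ (P w).D ^ 2 * (B + 1) := by
            have : 0 ≤ (P w).D ^ 2 := by positivity
            nlinarith
  have hcard₁ : S₁.card ≤ M := by
    have h := hT₀ (Real.log ((P w₀).D : ℝ)) ?_ {w // w ∈ S₁} (fun w => P w.1) ?_ ?_
    · rwa [Fintype.card_coe] at h
    · have := hlogD w₀
      rw [hL] at this
      have h1 := le_abs_self T₀
      have h2 := abs_nonneg T₀
      linarith
    · intro w
      have h1 := hw₀ w.1 (mem_univ _)
      have h2 : (P w.1).D ≤ α * (P w₀).D := (mem_filter.1 w.2).2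
      constructor
      · apply Real.log_le_log (hDposr w₀)
        exact_mod_cast h1
      · have h3 : ((P w.1).D : ℝ) ≤ α * ((P w₀).D : ℝ) := by exact_mod_cast h2
        have h4 := Real.log_le_log (hDposr w.1) h3
        rw [Real.log_mul (by positivity) (hDposr w₀).ne'] at h4
        have h5 := hlogD w₀
        rw [hL] at h5
        have h6 := abs_nonneg T₀
        linarith
    · intro w w' hne
      exact hW w.1 w'.1 fun h => hne (Subtype.ext h)
  have hDr : (0 : ℝ) < D := by exact_mod_cast hD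
  have hlogDD : L ≤ Real.log (D : ℝ) := by
    refine (hlogD w₀).trans (Real.log_le_log (hDposr w₀) ?_)
    exact_mod_cast hDle w₀
  have hcard₂ : S₂.card ≤ M := by
    have h := hT₀ ((Real.log (D : ℝ) - Real.log ((B : ℝ) + 1)) / 2) ?_ {w // w ∈ S₂}
      (fun w => P w.1) ?_ ?_
    · rwa [Fintype.card_coe] at h
    · rw [hL] at hlogDD
      have h1 := le_abs_self T₀
      linarith
    · intro w
      have h2 : (D : ℤ) ≤ (P w.1).D ^ 2 * (B + 1) := (mem_filter.1 w.2).2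
      constructor
      · have h3 : (D : ℝ) ≤ ((P w.1).D : ℝ) ^ 2 * ((B : ℝ) + 1) := by exact_mod_cast h2
        have h4 := Real.log_le_log hDr h3
        rw [Real.log_mul (by have := hDposr w.1; positivity) (by positivity), Real.log_pow] at h4
        push_cast at h4
        linarith
      · have h3 : ((P w.1).D : ℝ) ≤ (D : ℝ) := by exact_mod_cast hDle w.1
        have h4 := Real.log_le_log (hDposr w.1) h3
        rw [hL] at hlogDD
        have h5 := abs_nonneg T₀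
        linarith
    · intro w w' hne
      exact hW w.1 w'.1 fun h => hne (Subtype.ext h)
  have hfin : n = (univ : Finset (Fin n)).card := by simp
  calc n = (univ : Finset (Fin n)).card := hfin
    _ ≤ (S₁ ∪ S₂).card := card_le_card hcover
    _ ≤ S₁.card + S₂.card := card_union_le _ _
    _ ≤ 2 * M := by omega

end Pool.Agent.Work.MP_684405_nt
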