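import Mathlib
import Pool.Agent.Work.MP_684405_nt.Pattern
import Pool.Agent.Work.MP_684405_nt.TypeBound

/-!
# The squares do not contain arbitrarily long quasi-progressions of bounded diameter
-/

set_option autoImplicit false

namespace Pool.Agent.Work.MP_684405_nt

open Finset

/-- For every `C` there is a `k` such that no sequence of `k` squares is a quasi-progression of
diameter `C`. -/
theorem no_long_quasi_progression (C : ℕ) (hC : 0 < C) :
    ∃ k : ℕ, ∀ (X : ℕ → ℕ) (d : ℕ), 0 < d → (∀ i < k, IsSquare (X i)) →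
      ¬ ∀ i, i + 1 < k → X i + d ≤ X (i + 1) ∧ X (i + 1) ≤ X i + d + C := by
  classical
  obtain ⟨N, hN⟩ := exists_pattern C hC
  -- the finitely many types
  let Typ := Fin (N + 1) × Fin (C * N + 1) × (Fin 7 → Fin (N + 1))
  let tt : Typ → Fin 7 → ℕ := fun τ j => (τ.2.2 j : ℕ)
  let Valid : Typ → Prop := fun τ => 1 ≤ (τ.1 : ℕ) ∧ tt τ 0 = 0 ∧ Function.Injective (tt τ) ∧
    (univ : Finset (Fin 7)).gcd (tt τ) = 1
  have hM : ∀ τ : Typ, ∃ M : ℕ, Valid τ → ∀ B : ℕ, ∃ I₀ : ℕ, ∀ (d D : ℕ), 0 < d → d ≤ D →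
      D ≤ ((τ.1 : ℕ) + (τ.2.1 : ℕ)) * d →
      ∀ (n : ℕ) (x : Fin n → ℕ), (∀ w, I₀ * d ≤ x w) →
        (∀ w w', w ≠ w' → (d : ℤ) ≤ |(x w : ℤ) - x w'|) →
        (∀ w w', ∃ J : ℤ, |((τ.1 : ℕ) : ℤ) * ((x w : ℤ) - x w') - J * D| ≤ B) →
        (∀ w i, IsSquare (x w + tt τ i * D)) → n ≤ M := by
    intro τ
    by_cases hv : Valid τ
    · obtain ⟨M, hM⟩ := type_bound (tt τ) hv.2.1 hv.2.2.1 hv.2.2.2
        ((τ.1 : ℕ) + (τ.2.1 : ℕ)) (τ.1 : ℕ) (by have := hv.1; omega) hv.1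
      exact ⟨M, fun _ => hM⟩
    · exact ⟨0, fun h => absurd h hv⟩
  choose M hM using hM
  -- number of windows and their total span
  set m : ℕ := (∑ τ : Typ, M τ) + 1 with hm
  set span : ℕ := m * (N + 1) + N with hspan
  set B : ℕ := (N * C + C * N) * span with hB
  have hI : ∀ τ : Typ, ∃ I₀ : ℕ, Valid τ → ∀ (d D : ℕ), 0 < d → d ≤ D →
      D ≤ ((τ.1 : ℕ) + (τ.2.1 : ℕ)) * d →
      ∀ (n : ℕ) (x : Fin n → ℕ), (∀ w, I₀ * d ≤ x w) →
        (∀ w w', w ≠ w' → (d : ℤ) ≤ |(x w : ℤ) - x w'|) →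
        (∀ w w', ∃ J : ℤ, |((τ.1 : ℕ) : ℤ) * ((x w : ℤ) - x w') - J * D| ≤ B) →
        (∀ w i, IsSquare (x w + tt τ i * D)) → n ≤ M τ := by
    intro τ
    by_cases hv : Valid τ
    · obtain ⟨I₀, hI₀⟩ := hM τ hv B
      exact ⟨I₀, fun _ => hI₀⟩
    · exact ⟨0, fun h => absurd h hv⟩
  choose I₀ hI₀ using hI
  set I : ℕ := ∑ τ : Typ, I₀ τ with hIdef
  refine ⟨I + m * (N + 1) + 1, fun X d hd hsq hqp => ?_⟩
  set k : ℕ := I + m * (N + 1) with hk
  -- the deviation from the progression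
  set F : ℕ → ℤ := fun i => (X i : ℤ) - i * d with hF
  have hFstep : ∀ i < k, 0 ≤ F (i + 1) - F i ∧ F (i + 1) - F i ≤ C := by
    intro i hi
    obtain ⟨h1, h2⟩ := hqp i (by omega)
    have h1z : (X i : ℤ) + d ≤ X (i + 1) := by exact_mod_cast h1
    have h2z : (X (i + 1) : ℤ) ≤ X i + d + C := by exact_mod_cast h2
    simp only [hF]
    push_cast
    constructor <;> linarith
  have hFle : ∀ {i j : ℕ}, i ≤ j → j ≤ k → 0 ≤ F j - F i ∧ F j - F i ≤ C * ((j : ℤ) - i) :=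
    fun hij hj => step_bound hFstep hij hj
  -- windows
  have hwin : ∀ w : Fin m, ∃ (j₀ α β : ℕ) (t : Fin 7 → ℕ), 1 ≤ α ∧ α ≤ N ∧ β ≤ C * N ∧ t 0 = 0 ∧
      Function.Injective t ∧ (univ : Finset (Fin 7)).gcd t = 1 ∧ (∀ j, t j ≤ N) ∧
      I + w * (N + 1) ≤ j₀ ∧ (∀ j, j₀ + α * t j ≤ I + w * (N + 1) + N) ∧
      ∀ j, F (j₀ + α * t j) = F j₀ + β * t j := by
    intro w
    have hwk : I + (w : ℕ) * (N + 1) + N < k := by
      have h1 : (w : ℕ) + 1 ≤ m := w.2
      have h2 : ((w : ℕ) + 1) * (N + 1) ≤ m * (N + 1) := Nat.mul_le_mul_right _ h1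
      rw [hk]
      nlinarith
    obtain ⟨i₀, α, β, t, h1, h2, h3, h4, h5, h6, h7, h8, h9⟩ :=
      hN (fun i => F (I + w * (N + 1) + i)) (fun i hi => by
        have := hFstep (I + w * (N + 1) + i) (by omega)
        exact this)
    refine ⟨I + w * (N + 1) + i₀, α, β, t, h1, h2, h3, h4, h5, h6, h7, by omega, fun j => ?_,
      fun j => ?_⟩
    · have := h8 j
      omega
    · have := h9 j
      rw [← this]
      congr 1
      ring
  choose j₀ α β t h1 h2 h3 h4 h5 h6 h7 h8 h9 h10 using hwin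
  -- the type of a window
  let ty : Fin m → Typ := fun w => (⟨α w, Nat.lt_succ_of_le (h2 w)⟩,
    ⟨β w, Nat.lt_succ_of_le (h3 w)⟩, fun j => ⟨t w j, Nat.lt_succ_of_le (h7 w j)⟩)
  have hty : ∀ w, Valid (ty w) := fun w => ⟨h1 w, h4 w, h5 w, h6 w⟩
  -- pigeonhole
  obtain ⟨τ, hτ⟩ : ∃ τ : Typ, M τ < (univ.filter (fun w => ty w = τ)).card := by
    by_contra hcon
    push Not at hcon
    have h11 : (univ : Finset (Fin m)).card = ∑ τ : Typ, (univ.filter (fun w => ty w = τ)).card :=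
      card_eq_sum_card_fiberwise (fun w _ => mem_univ (ty w))
    rw [card_univ, Fintype.card_fin] at h11
    have h12 : ∑ τ : Typ, (univ.filter (fun w => ty w = τ)).card ≤ ∑ τ : Typ, M τ :=
      sum_le_sum fun τ _ => hcon τ
    omega
  set S : Finset (Fin m) := univ.filter (fun w => ty w = τ) with hS
  have hSne : S.Nonempty := card_pos.1 (by omega)
  have hSty : ∀ w ∈ S, ty w = τ := fun w hw => (mem_filter.1 hw).2
  have hvalid : Valid τ := by
    obtain ⟨w, hw⟩ := hSne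
    rw [← hSty w hw]; exact hty w
  have hα : ∀ w ∈ S, α w = (τ.1 : ℕ) := fun w hw => by rw [← hSty w hw]
  have hβ : ∀ w ∈ S, β w = (τ.2.1 : ℕ) := fun w hw => by rw [← hSty w hw]
  have ht : ∀ w ∈ S, ∀ j, t w j = tt τ j := fun w hw j => by rw [← hSty w hw]
  -- bounds for the base indices
  have hjk : ∀ w, j₀ w ≤ I + w * (N + 1) + N := fun w => by
    have := h9 w 0
    rw [h4 w] at this
    simpa using this
  have hjk' : ∀ w, j₀ w < k := fun w => by
    have h1 : (w : ℕ) + 1 ≤ m := w.2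
    have h2 : ((w : ℕ) + 1) * (N + 1) ≤ m * (N + 1) := Nat.mul_le_mul_right _ h1
    have := hjk w
    rw [hk]
    nlinarith
  have hjlt : ∀ w w' : Fin m, w < w' → j₀ w < j₀ w' := by
    intro w w' hww
    have h1 : (w : ℕ) + 1 ≤ w' := hww
    have h2 : ((w : ℕ) + 1) * (N + 1) ≤ w' * (N + 1) := Nat.mul_le_mul_right _ h1
    have h3 := hjk w
    have h4 := h8 w'
    nlinarith
  -- apply the bound
  let D : ℕ := (τ.1 : ℕ) * d + (τ.2.1 : ℕ)
  have hconcl := hI₀ τ hvalid d D hd ?_ ?_ S.card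
    (fun w => X (j₀ (S.equivFin.symm w).1)) ?_ ?_ ?_ ?_
  · omega
  · -- d ≤ D
    have := hvalid.1
    calc d = 1 * d := (one_mul d).symm
      _ ≤ (τ.1 : ℕ) * d := Nat.mul_le_mul_right _ this
      _ ≤ D := Nat.le_add_right _ _
  · -- D ≤ κ d
    have : (τ.2.1 : ℕ) ≤ (τ.2.1 : ℕ) * d := Nat.le_mul_of_pos_right _ hd
    calc D = (τ.1 : ℕ) * d + (τ.2.1 : ℕ) := rfl
      _ ≤ (τ.1 : ℕ) * d + (τ.2.1 : ℕ) * d := by omega
      _ = ((τ.1 : ℕ) + (τ.2.1 : ℕ)) * d := by ring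
  · -- lower bound for the terms
    intro w
    set v := (S.equivFin.symm w).1 with hv
    have h11 := (hFle (Nat.zero_le (j₀ v)) (hjk' v).le).1
    have h12 : I₀ τ ≤ j₀ v := by
      have h13 : I₀ τ ≤ I := single_le_sum (f := I₀) (fun τ _ => Nat.zero_le _) (mem_univ τ)
      have h14 := h8 v
      omega
    have h15 : ((j₀ v * d : ℕ) : ℤ) ≤ X (j₀ v) := by
      simp only [hF] at h11
      push_cast at h11 ⊢
      have : (0 : ℤ) ≤ X 0 := by positivity
      linarith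
    have h16 : j₀ v * d ≤ X (j₀ v) := by exact_mod_cast h15
    exact (Nat.mul_le_mul_right d h12).trans h16
  · -- separation
    intro w w' hne
    set v := (S.equivFin.symm w).1 with hv
    set v' := (S.equivFin.symm w').1 with hv'
    have hvne : v ≠ v' := fun h => hne (S.equivFin.symm.injective (Subtype.ext h))
    have key : ∀ u u' : Fin m, u < u' → (d : ℤ) ≤ (X (j₀ u') : ℤ) - X (j₀ u) := by
      intro u u' huu
      have h11 := hjlt u u' huu
      have h12 := (hFle h11.le (hjk' u').le).1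
      simp only [hF] at h12
      have h13 : ((j₀ u : ℤ) + 1) ≤ j₀ u' := by exact_mod_cast h11
      have hdz : (0 : ℤ) < d := by exact_mod_cast hd
      nlinarith
    rcases lt_or_gt_of_ne hvne with hlt | hlt
    · have h11 := key v v' hlt
      rw [abs_sub_comm]
      exact h11.trans (le_abs_self _)
    · exact (key v' v hlt).trans (le_abs_self _)
  · -- relation with the lines
    intro w w'
    set v := (S.equivFin.symm w).1 with hv
    set v' := (S.equivFin.symm w').1 with hv'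
    refine ⟨(j₀ v : ℤ) - j₀ v', ?_⟩
    have hτ1 : ((τ.1 : ℕ) : ℤ) ≤ N := by exact_mod_cast Nat.le_of_lt_succ τ.1.2
    have hτ2 : ((τ.2.1 : ℕ) : ℤ) ≤ C * N := by exact_mod_cast Nat.le_of_lt_succ τ.2.1.2
    have hτ1' : (0 : ℤ) ≤ ((τ.1 : ℕ) : ℤ) := by positivity
    have hτ2' : (0 : ℤ) ≤ ((τ.2.1 : ℕ) : ℤ) := by positivity
    have e1 : ((τ.1 : ℕ) : ℤ) * ((X (j₀ v) : ℤ) - X (j₀ v')) - ((j₀ v : ℤ) - j₀ v') * (D : ℕ) =
        ((τ.1 : ℕ) : ℤ) * (F (j₀ v) - F (j₀ v')) - ((τ.2.1 : ℕ) : ℤ) * ((j₀ v : ℤ) - j₀ v') := by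
      simp only [hF, D]
      push_cast
      ring
    rw [e1]
    have key : ∀ u u' : Fin m, j₀ u ≤ j₀ u' →
        |((j₀ u' : ℤ) - j₀ u)| ≤ span ∧ |F (j₀ u') - F (j₀ u)| ≤ C * span := by
      intro u u' huu
      have h11 := hFle huu (hjk' u').le
      have h12 : (j₀ u' : ℤ) - j₀ u ≤ span := by
        have h13 := hjk u'
        have h14 := h8 u
        have h15 : ((u' : ℕ) + 1) * (N + 1) ≤ m * (N + 1) := Nat.mul_le_mul_right _ u'.2
        have h16 : j₀ u' ≤ span + j₀ u := by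
          rw [hspan]
          nlinarith
        have h17 : (j₀ u' : ℤ) ≤ span + j₀ u := by exact_mod_cast h16
        linarith
      have h18 : (0 : ℤ) ≤ (j₀ u' : ℤ) - j₀ u := by
        have : (j₀ u : ℤ) ≤ j₀ u' := by exact_mod_cast huu
        linarith
      rw [abs_of_nonneg h18, abs_of_nonneg h11.1]
      refine ⟨h12, h11.2.trans ?_⟩
      exact mul_le_mul_of_nonneg_left h12 (by positivity)
    have key2 : |((j₀ v : ℤ) - j₀ v')| ≤ span ∧ |F (j₀ v) - F (j₀ v')| ≤ C * span := by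
      rcases le_total (j₀ v) (j₀ v') with h | h
      · have := key v v' h
        rw [abs_sub_comm, abs_sub_comm (F (j₀ v))]
        exact this
      · exact key v' v h
    have hspan0 : (0 : ℤ) ≤ span := by positivity
    have hN0 : (0 : ℤ) ≤ N := by positivity
    have hC0 : (0 : ℤ) ≤ C := by positivity
    calc |((τ.1 : ℕ) : ℤ) * (F (j₀ v) - F (j₀ v')) - ((τ.2.1 : ℕ) : ℤ) * ((j₀ v : ℤ) - j₀ v')|
        ≤ |((τ.1 : ℕ) : ℤ) * (F (j₀ v) - F (j₀ v'))| +
          |((τ.2.1 : ℕ) : ℤ) * ((j₀ v : ℤ) - j₀ v')| := abs_sub _ _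
      _ = ((τ.1 : ℕ) : ℤ) * |F (j₀ v) - F (j₀ v')| +
          ((τ.2.1 : ℕ) : ℤ) * |(j₀ v : ℤ) - j₀ v'| := by
          rw [abs_mul, abs_mul, abs_of_nonneg hτ1', abs_of_nonneg hτ2']
      _ ≤ N * (C * span) + (C * N) * span := by
          apply add_le_add
          · exact mul_le_mul hτ1 key2.2 (abs_nonneg _) hN0
          · exact mul_le_mul hτ2 key2.1 (abs_nonneg _) (by positivity)
      _ = ((B : ℕ) : ℤ) := by rw [hB]; push_cast; ring
  · -- squares
    intro w i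
    set v := (S.equivFin.symm w).1 with hv
    have hvS : v ∈ S := (S.equivFin.symm w).2
    have h11 := h10 v i
    have h12 : X (j₀ v) + tt τ i * D = X (j₀ v + α v * t v i) := by
      rw [hα v hvS, hβ v hvS, ht v hvS] at h11
      rw [hα v hvS, ht v hvS]
      simp only [hF] at h11
      have h13 : ((X (j₀ v) + tt τ i * D : ℕ) : ℤ) = X (j₀ v + (τ.1 : ℕ) * tt τ i) := by
        simp only [D]
        push_cast at h11 ⊢
        linarith
      exact_mod_cast h13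
    rw [h12]
    apply hsq
    have h13 := h9 v i
    have h1 : (v : ℕ) + 1 ≤ m := v.2
    have h2 : ((v : ℕ) + 1) * (N + 1) ≤ m * (N + 1) := Nat.mul_le_mul_right _ h1
    have h3 : ((v : ℕ) + 1) * (N + 1) = (v : ℕ) * (N + 1) + (N + 1) := by ring
    rw [h3] at h2
    rw [hk]
    linarith

end Pool.Agent.Work.MP_684405_nt
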